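import Pool.Agent.Helper71.E5.WStmts

/-!
MP_efd95c_co, wheels: the local inequality at one vertex of a full family (Lemma G), used to
exclude unstressed spokes.
-/

set_option autoImplicit false

open scoped MeasureTheory ENNReal Topology
open Complex

noncomputable section

namespace E5

theorem crs_eq (u v : ℂ) : crs u v = u.re * v.im - u.im * v.re := by
  unfold crs
  simp only [Complex.mul_im, Complex.conj_re, Complex.conj_im]
  ring

theorem e_re (t : ℝ) : (AX.e t).re = Real.cos t := by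
  unfold AX.e
  exact Complex.exp_ofReal_mul_I_re t

theorem e_im (t : ℝ) : (AX.e t).im = Real.sin t := by
  unfold AX.e
  exact Complex.exp_ofReal_mul_I_im t

/-- Lemma G: the special neighbour is the next one -/
theorem LG0_next (a b Ts Tv : ℝ) (zu : ℂ) (hab : a < b) (hba : b < a + Real.pi) (hTv : 0 ≤ Tv)
    (hY : ((starRingEnd ℂ) (AX.e b) * zu).im ≤ 1)
    (h1 : 0 < crs (AX.e b * (I - (Ts : ℂ))) zu)
    (h2 : 0 ≤ crs (AX.e b * (I - (Ts : ℂ))) (AX.e a * (-I - (Tv : ℂ)))) :
    crs zu (AX.e a * (-I - (Tv : ℂ))) <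
      crs (AX.e b * (I - (Ts : ℂ))) zu +
        crs (AX.e b * (I - (Ts : ℂ))) (AX.e a * (-I - (Tv : ℂ))) := by
  have hs : 0 < Real.sin (b - a) := Real.sin_pos_of_pos_of_lt_pi (by linarith) (by linarith)
  have hc : 0 < 1 - Real.cos (b - a) := by
    have h3 : Real.cos (b - a) < 1 := by
      have := Real.sin_sq_add_cos_sq (b - a)
      nlinarith
    linarith
  have key : crs (AX.e b * (I - (Ts : ℂ))) zu +
        crs (AX.e b * (I - (Ts : ℂ))) (AX.e a * (-I - (Tv : ℂ))) -
        crs zu (AX.e a * (-I - (Tv : ℂ))) =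
      crs (AX.e b * (I - (Ts : ℂ))) zu * ((1 - Real.cos (b - a)) + Tv * Real.sin (b - a)) +
      (1 - ((starRingEnd ℂ) (AX.e b) * zu).im) *
        crs (AX.e b * (I - (Ts : ℂ))) (AX.e a * (-I - (Tv : ℂ))) := by
    rw [crs_eq, crs_eq, crs_eq, Real.cos_sub, Real.sin_sub]
    simp only [Complex.mul_re, Complex.mul_im, Complex.sub_re, Complex.sub_im, Complex.neg_re,
      Complex.neg_im, Complex.I_re, Complex.I_im, Complex.ofReal_re, Complex.ofReal_im,
      Complex.conj_re, Complex.conj_im, e_re, e_im]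
    have hb := Real.sin_sq_add_cos_sq b
    have ha := Real.sin_sq_add_cos_sq a
    have hb' : Real.cos b ^ 2 = 1 - Real.sin b ^ 2 := by linarith
    have ha' : Real.cos a ^ 2 = 1 - Real.sin a ^ 2 := by linarith
    generalize Real.sin b = sb at *
    generalize Real.cos b = cb at *
    generalize Real.sin a = sa at *
    generalize Real.cos a = ca at *
    generalize zu.re = x
    generalize zu.im = y
    linear_combination (exp := 1) (-(x * ca) - Tv * x * sa - y * sa + Tv * y * ca) * hb +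
      (0 : ℝ) * ha
  have h4 : 0 < crs (AX.e b * (I - (Ts : ℂ))) zu *
      ((1 - Real.cos (b - a)) + Tv * Real.sin (b - a)) :=
    mul_pos h1 (by positivity)
  have h5 : 0 ≤ (1 - ((starRingEnd ℂ) (AX.e b) * zu).im) *
        crs (AX.e b * (I - (Ts : ℂ))) (AX.e a * (-I - (Tv : ℂ))) :=
    mul_nonneg (by linarith) h2
  linarith

/-- Lemma G: the special neighbour is the previous one -/
theorem LG0_prev (a b Ts Tv : ℝ) (zu : ℂ) (hab : a < b) (hba : b < a + Real.pi) (hTv : 0 ≤ Tv)
    (hY : -((starRingEnd ℂ) (AX.e a) * zu).im ≤ 1)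
    (h1 : 0 < crs zu (AX.e a * (-I - (Ts : ℂ))))
    (h2 : 0 ≤ crs (AX.e b * (I - (Tv : ℂ))) (AX.e a * (-I - (Ts : ℂ)))) :
    crs (AX.e b * (I - (Tv : ℂ))) zu <
      crs zu (AX.e a * (-I - (Ts : ℂ))) +
        crs (AX.e b * (I - (Tv : ℂ))) (AX.e a * (-I - (Ts : ℂ))) := by
  have hs : 0 < Real.sin (b - a) := Real.sin_pos_of_pos_of_lt_pi (by linarith) (by linarith)
  have hc : 0 < 1 - Real.cos (b - a) := by
    have h3 : Real.cos (b - a) < 1 := by
      have := Real.sin_sq_add_cos_sq (b - a)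
      nlinarith
    linarith
  have key : crs zu (AX.e a * (-I - (Ts : ℂ))) +
        crs (AX.e b * (I - (Tv : ℂ))) (AX.e a * (-I - (Ts : ℂ))) -
        crs (AX.e b * (I - (Tv : ℂ))) zu =
      crs zu (AX.e a * (-I - (Ts : ℂ))) * ((1 - Real.cos (b - a)) + Tv * Real.sin (b - a)) +
      (1 + ((starRingEnd ℂ) (AX.e a) * zu).im) *
        crs (AX.e b * (I - (Tv : ℂ))) (AX.e a * (-I - (Ts : ℂ))) := by
    rw [crs_eq, crs_eq, crs_eq, Real.cos_sub, Real.sin_sub]
    simp only [Complex.mul_re, Complex.mul_im, Complex.sub_re, Complex.sub_im, Complex.neg_re,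
      Complex.neg_im, Complex.I_re, Complex.I_im, Complex.ofReal_re, Complex.ofReal_im,
      Complex.conj_re, Complex.conj_im, e_re, e_im]
    have ha := Real.sin_sq_add_cos_sq a
    generalize Real.sin b = sb at *
    generalize Real.cos b = cb at *
    generalize Real.sin a = sa at *
    generalize Real.cos a = ca at *
    generalize zu.re = x
    generalize zu.im = y
    linear_combination (exp := 1) (-(x * cb) + Tv * x * sb - y * sb - Tv * y * cb) * ha
  have h4 : 0 < crs zu (AX.e a * (-I - (Ts : ℂ))) *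
      ((1 - Real.cos (b - a)) + Tv * Real.sin (b - a)) :=
    mul_pos h1 (by positivity)
  have h5 : 0 ≤ (1 + ((starRingEnd ℂ) (AX.e a) * zu).im) *
        crs (AX.e b * (I - (Tv : ℂ))) (AX.e a * (-I - (Ts : ℂ))) :=
    mul_nonneg (by linarith) h2
  linarith

/-- the force of a pair, seen from a touching direction -/
theorem LG0_Y (v : ℂ) (s : ℝ) (x y : ℂ) (hxy : x - y = v) (hne : x ≠ y) (hd : dist x y < 2)
    (h : dist (x + AX.e s) y ≤ 1) :
    |((starRingEnd ℂ) (AX.e s) * ((om x y : ℂ) * v)).im| ≤ 1 := by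
  have hD : 0 < dist x y := dist_pos.2 hne
  set D := dist x y with hDd
  have hq : 0 < 4 - D ^ 2 := by nlinarith
  set R := Real.sqrt (4 - D ^ 2) with hR
  have hR0 : 0 < R := Real.sqrt_pos.2 hq
  have hR2 : R ^ 2 = 4 - D ^ 2 := Real.sq_sqrt hq.le
  set u := (starRingEnd ℂ) (AX.e s) * v with hu
  have hns : ‖AX.e s‖ = 1 := by
    unfold AX.e
    exact Complex.norm_exp_ofReal_mul_I s
  have hnu : ‖u‖ = D := by
    rw [hu, norm_mul, Complex.norm_conj, hns, one_mul, ← hxy, ← dist_eq_norm]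
  have hn2 : u.re ^ 2 + u.im ^ 2 = D ^ 2 := by
    rw [← hnu, Complex.sq_norm, Complex.normSq_apply]
    ring
  have hre : u.re ≤ -(D ^ 2 / 2) := by
    have h3 : ‖v + AX.e s‖ ≤ 1 := by
      rw [dist_eq_norm] at h
      have : x + AX.e s - y = v + AX.e s := by rw [← hxy]; ring
      rwa [this] at h
    have h4 : ‖v + AX.e s‖ ^ 2 ≤ 1 := by
      have := norm_nonneg (v + AX.e s)
      nlinarith
    have h5 : ‖v + AX.e s‖ ^ 2 = ‖u + 1‖ ^ 2 := by
      have h6 : u + 1 = (starRingEnd ℂ) (AX.e s) * (v + AX.e s) := by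
        have h7 : (starRingEnd ℂ) (AX.e s) * AX.e s = 1 := by
          rw [mul_comm, Complex.mul_conj, Complex.normSq_eq_norm_sq, hns]
          norm_num
        rw [mul_add, h7]
      rw [h6, norm_mul, Complex.norm_conj, hns, one_mul]
    rw [h5, Complex.sq_norm, Complex.normSq_apply] at h4
    simp only [Complex.add_re, Complex.add_im, Complex.one_re, Complex.one_im] at h4
    nlinarith
  have him : u.im ^ 2 ≤ D ^ 2 * R ^ 2 / 4 := by
    rw [hR2]
    have h8 : (D ^ 2 / 2) ^ 2 ≤ u.re ^ 2 := by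
      rw [sq_le_sq]
      rw [abs_of_nonneg (by positivity), abs_of_nonpos (by nlinarith)]
      linarith
    nlinarith
  have h9 : (starRingEnd ℂ) (AX.e s) * ((om x y : ℂ) * v) = (om x y : ℂ) * u := by
    rw [hu]; ring
  rw [h9, Complex.im_ofReal_mul, abs_mul]
  have hom : om x y = 2 / (D * R) := rfl
  have hom0 : 0 < om x y := by rw [hom]; positivity
  rw [abs_of_pos hom0]
  have h10 : |u.im| ≤ D * R / 2 := by
    apply abs_le_of_sq_le_sq _ (by positivity)
    nlinarith
  calc om x y * |u.im| ≤ om x y * (D * R / 2) := mul_le_mul_of_nonneg_left h10 hom0.le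
    _ = 1 := by rw [hom]; field_simp

end E5
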