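import Pool.Agent.Helper1.E5.SPK

/-!
MP_efd95c_co, wheels: Lemma G for a full family, in terms of the hull data.
-/

set_option autoImplicit false

open Complex

noncomputable section

namespace E5

/-- the force of the pair `i, j` at `i` -/
def zz {n : ℕ} (c : Fin n → ℂ) (i j : Fin n) : ℂ := (om (c i) (c j) : ℂ) * (c i - c j)

theorem zz_next (hONARC : ST_ONARC) (hLG : ST_LG) (hD2 : ST_D2) {n M : ℕ} {c : Fin n → ℂ}
    {g : ℤ → Fin n} {a b : ℤ → ℝ} (h : HD c M g a b) (m : ℤ) (hne : g m ≠ g (m + 1)) :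
    zz c (g m) (g (m + 1)) = AX.e (b m) * (I - (Real.tan (lg (c (g m)) (c (g (m + 1))) / 2) : ℂ)) ∧
    zz c (g (m + 1)) (g m) =
      AX.e (a (m + 1)) * (-I - (Real.tan (lg (c (g m)) (c (g (m + 1))) / 2) : ℂ)) ∧
    0 ≤ Real.tan (lg (c (g m)) (c (g (m + 1))) / 2) := by
  have hs := h.step m
  have hc := h.corner m
  have hcne : c (g m) ≠ c (g (m + 1)) := fun h' => hne (h.inj h')
  have hd2 := hD2 n c h.int (g m) (g (m + 1))
  have hpos := hLG.2.2.2.2.1 _ _ hcne
  have hlt := (hLG.2.2.2.2.2.1 _ _ hd2).1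
  have htn := hLG.2.2.2.2.2.1 _ _ hd2
  have ho := hONARC (c (g m) + AX.e (b m)) (b m) (a (m + 1)) (by linarith) (by linarith)
  have e1 : c (g m) + AX.e (b m) - AX.e (b m) = c (g m) := by ring
  have e2 : c (g m) + AX.e (b m) - AX.e (a (m + 1)) = c (g (m + 1)) := by rw [hc]; ring
  have e3 : a (m + 1) - b m = lg (c (g m)) (c (g (m + 1))) := by linarith
  rw [e1, e2, e3] at ho
  refine ⟨ho.2.2.1, ?_, ?_⟩
  · unfold zz
    rw [om_comm]
    exact ho.2.2.2
  · rw [← htn.2.1]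
    exact htn.2.2.2

theorem crs_smul (r s : ℝ) (u v : ℂ) : crs ((r : ℂ) * u) ((s : ℂ) * v) = r * s * crs u v := by
  rw [crs_eq, crs_eq, Complex.re_ofReal_mul, Complex.im_ofReal_mul, Complex.re_ofReal_mul,
    Complex.im_ofReal_mul]
  ring

theorem om_pos1 (hLG : ST_LG) (hD2 : ST_D2) {n M : ℕ} {c : Fin n → ℂ}
    {g : ℤ → Fin n} {a b : ℤ → ℝ} (h : HD c M g a b) {i j : Fin n} (hne : i ≠ j) :
    0 < om (c i) (c j) :=
  (hLG.2.2.2.2.2.2 _ _ (fun h' => hne (h.inj h')) (hD2 n c h.int i j)).2.1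

theorem crs_zz (hORI : ST_ORI) (hLG : ST_LG) (hD2 : ST_D2) {n M : ℕ} {c : Fin n → ℂ}
    {g : ℤ → Fin n} {a b : ℤ → ℝ} (h : HD c M g a b) {i j k : ℤ} (hij : i < j) (hjk : j < k)
    (hk : k < i + M) : 0 < crs (zz c (g i) (g j)) (zz c (g i) (g k)) := by
  have hne : ∀ i j : ℤ, i < j → j < i + M → g i ≠ g j := by
    intro i j hij hji h'
    obtain ⟨z, hz⟩ := h.ginj i j h'
    rcases lt_trichotomy z 0 with hz0 | hz0 | hz0
    · have : (M : ℤ) * z < 0 := by
        have h2 := h.two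
        have : (0 : ℤ) < M := by exact_mod_cast (by omega : 0 < M)
        exact mul_neg_of_pos_of_neg this hz0
      omega
    · rw [hz0] at hz; omega
    · have : (M : ℤ) ≤ (M : ℤ) * z := by
        have h2 := h.two
        have : (0 : ℤ) < M := by exact_mod_cast (by omega : 0 < M)
        exact le_mul_of_one_le_right this.le (by omega)
      omega
  have h1 := hORI n c M g a b h i j k hij hjk hk
  have o1 := om_pos1 hLG hD2 h (hne i j hij (by omega))
  have o2 := om_pos1 hLG hD2 h (hne i k (by omega) hk)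
  unfold zz
  rw [crs_smul]
  have h2 : crs (c (g i) - c (g j)) (c (g i) - c (g k)) =
      crs (c (g j) - c (g i)) (c (g k) - c (g i)) := by
    rw [crs_eq, crs_eq]
    simp only [Complex.sub_re, Complex.sub_im]
    ring
  rw [h2]
  positivity

/-- Lemma G -/
theorem lemG (hONARC : ST_ONARC) (hLG : ST_LG) (hD2 : ST_D2) (hORI : ST_ORI) {n M : ℕ}
    {c : Fin n → ℂ} {g : ℤ → Fin n} {a b : ℤ → ℝ} (h : HD c M g a b) (hf : ∀ k, a k < b k)
    (m l : ℤ) (h1 : m + 1 < l) (h2 : l < m + M - 1) :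
    crs (zz c (g m) (g l)) (zz c (g m) (g (m - 1))) <
      crs (zz c (g m) (g (m + 1))) (zz c (g m) (g l)) +
      crs (zz c (g m) (g (m + 1))) (zz c (g m) (g (m - 1))) ∧
    crs (zz c (g m) (g (m + 1))) (zz c (g m) (g l)) <
      crs (zz c (g m) (g l)) (zz c (g m) (g (m - 1))) +
      crs (zz c (g m) (g (m + 1))) (zz c (g m) (g (m - 1))) := by
  have hper : g (m - 1 + M) = g (m - 1) := h.gper (m - 1)
  have c1 := crs_zz hORI hLG hD2 h (i := m) (j := m + 1) (k := l) (by omega) h1 (by omega)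
  have c2 := crs_zz hORI hLG hD2 h (i := m) (j := m + 1) (k := m - 1 + M) (by omega) (by omega)
    (by omega)
  have c3 := crs_zz hORI hLG hD2 h (i := m) (j := l) (k := m - 1 + M) (by omega) (by omega)
    (by omega)
  rw [hper] at c2 c3
  have hne : ∀ i j : ℤ, i < j → j < i + M → g i ≠ g j := by
    intro i j hij hji h'
    obtain ⟨z, hz⟩ := h.ginj i j h'
    have hM : (0 : ℤ) < M := by
      have h2 := h.two
      exact_mod_cast (by omega : 0 < M)
    rcases lt_trichotomy z 0 with hz0 | hz0 | hz0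
    · have := mul_neg_of_pos_of_neg hM hz0
      omega
    · rw [hz0] at hz; omega
    · have : (M : ℤ) ≤ (M : ℤ) * z := le_mul_of_one_le_right hM.le (by omega)
      omega
  obtain ⟨n1, _, n3⟩ := zz_next hONARC hLG hD2 h m (hne m (m + 1) (by omega) (by omega))
  obtain ⟨_, p2, p3⟩ := zz_next hONARC hLG hD2 h (m - 1)
    (by rw [show m - 1 + 1 = m by ring]; exact hne (m - 1) m (by omega) (by omega))
  rw [show m - 1 + 1 = m by ring] at p2 p3
  have hT : ∀ s, s ∈ AX.T 1 c (g m) → dist (c (g m) + AX.e s) (c (g l)) ≤ 1 := by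
    intro s hs
    unfold AX.T at hs
    have hs' : c (g m) + ((1 : ℝ) : ℂ) * AX.e s ∈ AX.K 1 c := hs
    unfold AX.K at hs'
    rw [Set.mem_iInter] at hs'
    have := hs' (g l)
    rw [Metric.mem_closedBall] at this
    simpa using this
  have hbm : b m ∈ AX.T 1 c (g m) :=
    (h.mem m (b m) (h.le m) (by have := h.ltpi m; linarith [Real.pi_pos])).2 le_rfl
  have ham : a m ∈ AX.T 1 c (g m) :=
    (h.mem m (a m) le_rfl (by linarith [Real.pi_pos])).2 (h.le m)
  have hml : g m ≠ g l := hne m l (by omega) (by omega)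
  have hcml : c (g m) ≠ c (g l) := fun h' => hml (h.inj h')
  have Yb := LG0_Y (c (g m) - c (g l)) (b m) (c (g m)) (c (g l)) rfl hcml
    (hD2 n c h.int _ _) (hT _ hbm)
  have Ya := LG0_Y (c (g m) - c (g l)) (a m) (c (g m)) (c (g l)) rfl hcml
    (hD2 n c h.int _ _) (hT _ ham)
  constructor
  · have := LG0_next (a m) (b m) (Real.tan (lg (c (g m)) (c (g (m + 1))) / 2))
      (Real.tan (lg (c (g (m - 1))) (c (g m)) / 2)) (zz c (g m) (g l)) (hf m) (h.ltpi m) p3
      (le_trans (le_abs_self _) Yb) (by rw [← n1]; exact c1) (by rw [← n1, ← p2]; exact c2.le)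
    rw [← n1, ← p2] at this
    exact this
  · have := LG0_prev (a m) (b m) (Real.tan (lg (c (g (m - 1))) (c (g m)) / 2))
      (Real.tan (lg (c (g m)) (c (g (m + 1))) / 2)) (zz c (g m) (g l)) (hf m) (h.ltpi m) n3
      (le_trans (neg_le_abs _) Ya) (by rw [← p2]; exact c3) (by rw [← n1, ← p2]; exact c2.le)
    rw [← n1, ← p2] at this
    exact this

/-- the equation `z_s + z_v = w (z_u + z_v)` is impossible -/
theorem lemG_eq (hONARC : ST_ONARC) (hLG : ST_LG) (hD2 : ST_D2) (hORI : ST_ORI) {n M : ℕ}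
    {c : Fin n → ℂ} {g : ℤ → Fin n} {a b : ℤ → ℝ} (h : HD c M g a b) (hf : ∀ k, a k < b k)
    (m l : ℤ) (h1 : m + 1 < l) (h2 : l < m + M - 1) (w : ℝ) :
    zz c (g m) (g (m + 1)) + zz c (g m) (g (m - 1)) ≠
      (w : ℂ) * (zz c (g m) (g l) + zz c (g m) (g (m + 1))) ∧
    zz c (g m) (g (m + 1)) + zz c (g m) (g (m - 1)) ≠
      (w : ℂ) * (zz c (g m) (g l) + zz c (g m) (g (m - 1))) := by
  obtain ⟨G1, G2⟩ := lemG hONARC hLG hD2 hORI h hf m l h1 h2
  constructor
  · intro he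
    have h3 : crs (zz c (g m) (g (m + 1)) + zz c (g m) (g (m - 1)))
        (zz c (g m) (g l) + zz c (g m) (g (m + 1))) = 0 := by
      rw [he, crs_eq, Complex.re_ofReal_mul, Complex.im_ofReal_mul]
      ring
    rw [crs_eq] at h3 G2
    rw [crs_eq, crs_eq] at G2
    simp only [Complex.add_re, Complex.add_im] at h3
    linarith
  · intro he
    have h3 : crs (zz c (g m) (g (m + 1)) + zz c (g m) (g (m - 1)))
        (zz c (g m) (g l) + zz c (g m) (g (m - 1))) = 0 := by
      rw [he, crs_eq, Complex.re_ofReal_mul, Complex.im_ofReal_mul]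
      ring
    rw [crs_eq] at h3 G1
    rw [crs_eq, crs_eq] at G1
    simp only [Complex.add_re, Complex.add_im] at h3
    linarith

end E5
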