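import Pool.Agent.Helper71.E5.Stmts
import Pool.Agent.Helper72.E5.A
import Pool.Agent.Results.MP_efd95c_co.DirectionalContractions

/-!
MP_efd95c_co, Alexander's conjecture for at most five disks: one fold over a line, and the two
patterns of wheels of type B.
-/

set_option autoImplicit false

open scoped MeasureTheory ENNReal
open Complex

noncomputable section

namespace E5

/-- the directional contractions in the complex plane -/
theorem per_dir {n : ℕ} (p q : Fin n → ℂ) (e : ℂ) (t : Fin n → ℝ) (he : ‖e‖ = 1)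
    (h1 : ∀ i, q i = p i + (t i : ℂ) * e)
    (h2 : ∀ i j, |((starRingEnd ℂ) e * (q i - q j)).re| ≤
      |((starRingEnd ℂ) e * (p i - p j)).re|) : per p ≤ per q := by
  set ψ : ℂ ≃ₗᵢ[ℝ] EuclideanSpace ℝ (Fin 2) := Complex.orthonormalBasisOneI.repr with hψ
  have hfr : ∀ s : Fin n → ℂ,
      μH[1] (frontier (⋂ i, Metric.closedBall (ψ (s i)) 1)) = μH[1] (frontier (AX.K 1 s)) := by
    intro s
    have hall : ψ.toIsometryEquiv '' (AX.K 1 s) = ⋂ i, Metric.closedBall (ψ (s i)) 1 := by
      ext z
      obtain ⟨y, rfl⟩ := ψ.toIsometryEquiv.surjective z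
      rw [ψ.toIsometryEquiv.injective.mem_set_image]
      unfold AX.K
      simp only [Set.mem_iInter, Metric.mem_closedBall]
      constructor
      · intro h i
        have := h i
        rw [← ψ.toIsometryEquiv.dist_eq] at this
        exact this
      · intro h i
        have := h i
        rw [← ψ.toIsometryEquiv.dist_eq]
        exact this
    rw [← hall]
    have h3 : frontier (ψ.toIsometryEquiv '' (AX.K 1 s)) =
        ψ.toIsometryEquiv '' frontier (AX.K 1 s) :=
      (ψ.toIsometryEquiv.toHomeomorph.image_frontier _).symm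
    rw [h3, ψ.toIsometryEquiv.hausdorffMeasure_image]
  have hD : AD.DirStep (fun i => ψ (p i)) (fun i => ψ (q i)) := by
    refine ⟨ψ e, ?_, ?_, ?_⟩
    · rw [ψ.norm_map]
      exact he
    · intro i
      refine ⟨t i, ?_⟩
      show ψ (q i) = ψ (p i) + t i • ψ e
      rw [h1 i, map_add, ← ψ.map_smul]
      rfl
    · intro i j
      show |inner ℝ (ψ e) (ψ (q i) - ψ (q j))| ≤ |inner ℝ (ψ e) (ψ (p i) - ψ (p j))|
      rw [← map_sub, ← map_sub, ψ.inner_map_map, ψ.inner_map_map, Complex.inner, Complex.inner]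
      have := h2 i j
      convert this using 3 <;> ring
  have h4 := Pool.Agent.Results.MP_efd95c_co.DirectionalContractions.result n 1
    (fun i => ψ (p i)) (fun i => ψ (q i)) (AD.Reach.step hD)
  rw [hfr p, hfr q] at h4
  exact ENNReal.toReal_mono (FIN _ q) h4

theorem per_add {n : ℕ} (c : ℂ) (p : Fin n → ℂ) : per (fun i => c + p i) = per p :=
  PISO n p (IsometryEquiv.addLeft c)

theorem per_rot {n : ℕ} (u : ℂ) (hu : ‖u‖ = 1) (p : Fin n → ℂ) :
    per (fun i => u * p i) = per p := by
  have hu0 : u ≠ 0 := by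
    intro h
    rw [h, norm_zero] at hu
    exact zero_ne_one hu
  have h := PISO n p (IsometryEquiv.mk (Equiv.mulLeft₀ u hu0) (by
    refine Isometry.of_dist_eq ?_
    intro x y
    show dist (u * x) (u * y) = dist x y
    rw [dist_eq_norm, ← mul_sub, norm_mul, hu, one_mul, dist_eq_norm]))
  exact h

theorem per_conj {n : ℕ} (p : Fin n → ℂ) : per (fun i => (starRingEnd ℂ) (p i)) = per p :=
  PISO n p Complex.conjLIE.toIsometryEquiv

theorem e_conj (t : ℝ) : (starRingEnd ℂ) (AX.e t) = AX.e (-t) := by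
  unfold AX.e
  rw [← Complex.exp_conj]
  simp

theorem e_add (s t : ℝ) : AX.e (s + t) = AX.e s * AX.e t := by
  unfold AX.e
  rw [← Complex.exp_add]
  congr 1
  push_cast
  ring

theorem e_norm (t : ℝ) : ‖AX.e t‖ = 1 := by
  unfold AX.e
  exact Complex.norm_exp_ofReal_mul_I t

/-- fold of the half plane on the left of the line with direction `e φ` -/
theorem per_fold {n : ℕ} (r α β : Fin n → ℝ) (φ : ℝ) (hr : ∀ i, 0 ≤ r i)
    (h : ∀ i, (φ - Real.pi ≤ α i ∧ α i ≤ φ ∧ β i = α i) ∨
      (φ ≤ α i ∧ α i ≤ φ + Real.pi ∧ β i = 2 * φ - α i)) :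
    per (fun i => (r i : ℂ) * AX.e (α i)) ≤ per (fun i => (r i : ℂ) * AX.e (β i)) := by
  -- signed distances from the line
  have hre : ∀ s : ℝ, ∀ t : ℝ, ((starRingEnd ℂ) (I * AX.e φ) * ((s : ℂ) * AX.e t)).re =
      s * Real.sin (t - φ) := by
    intro s t
    have h1 : (starRingEnd ℂ) (I * AX.e φ) * ((s : ℂ) * AX.e t) =
        (s : ℂ) * (-I * AX.e (t - φ)) := by
      rw [map_mul, Complex.conj_I, e_conj, sub_eq_add_neg, e_add]
      ring
    rw [h1, Complex.re_ofReal_mul]
    congr 1
    unfold AX.e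
    rw [Complex.exp_mul_I, ← Complex.ofReal_cos, ← Complex.ofReal_sin]
    simp only [Complex.mul_re, Complex.add_re, Complex.add_im, Complex.neg_re, Complex.neg_im,
      Complex.I_re, Complex.I_im, Complex.ofReal_re, Complex.ofReal_im, Complex.mul_im]
    ring
  have hs : ∀ i, (r i * Real.sin (β i - φ) = r i * Real.sin (α i - φ) ∧
      r i * Real.sin (α i - φ) ≤ 0 ∧ β i = α i) ∨
      (r i * Real.sin (β i - φ) = - (r i * Real.sin (α i - φ)) ∧
      0 ≤ r i * Real.sin (α i - φ) ∧ β i = 2 * φ - α i) := by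
    intro i
    rcases h i with ⟨h1, h2, h3⟩ | ⟨h1, h2, h3⟩
    · left
      refine ⟨by rw [h3], ?_, h3⟩
      have : Real.sin (α i - φ) ≤ 0 :=
        Real.sin_nonpos_of_nonpos_of_neg_pi_le (by linarith) (by linarith)
      exact mul_nonpos_of_nonneg_of_nonpos (hr i) this
    · right
      refine ⟨?_, ?_, h3⟩
      · rw [h3]
        have : 2 * φ - α i - φ = -(α i - φ) := by ring
        rw [this, Real.sin_neg]
        ring
      · exact mul_nonneg (hr i) (Real.sin_nonneg_of_nonneg_of_le_pi (by linarith) (by linarith))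
  refine per_dir _ _ (I * AX.e φ) (fun i => r i * Real.sin (β i - φ) - r i * Real.sin (α i - φ))
    (by rw [norm_mul, Complex.norm_I, e_norm, one_mul]) ?_ ?_
  · intro i
    rcases hs i with ⟨h1, h2, h3⟩ | ⟨h1, h2, h3⟩
    · simp only [h3]
      simp
    · simp only [h3]
      have e1 : 2 * φ - α i - φ = -(α i - φ) := by ring
      rw [e1, Real.sin_neg]
      -- e(2φ - α) = e(α) - 2 sin(α - φ) i e(φ)
      have e2 : AX.e (2 * φ - α i) = AX.e φ * AX.e (-(α i - φ)) := by
        rw [← e_add]
        congr 1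
        ring
      have e3 : AX.e (α i) = AX.e φ * AX.e (α i - φ) := by
        rw [← e_add]
        congr 1
        ring
      have e4 : AX.e (-(α i - φ)) = AX.e (α i - φ) - 2 * (Real.sin (α i - φ) : ℂ) * I := by
        unfold AX.e
        rw [Complex.exp_mul_I, Complex.exp_mul_I]
        push_cast
        rw [Complex.cos_neg, Complex.sin_neg]
        ring
      rw [e2, e4, e3]
      push_cast
      ring
  · intro i j
    rw [mul_sub, mul_sub, Complex.sub_re, Complex.sub_re, hre, hre, hre, hre]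
    have key : ∀ x y X Y : ℝ, (X = x ∧ x ≤ 0 ∨ X = -x ∧ 0 ≤ x) → (Y = y ∧ y ≤ 0 ∨ Y = -y ∧ 0 ≤ y) →
        |X - Y| ≤ |x - y| := by
      intro x y X Y hx hy
      rcases hx with ⟨rfl, hx⟩ | ⟨rfl, hx⟩ <;> rcases hy with ⟨rfl, hy⟩ | ⟨rfl, hy⟩
      · exact le_refl _
      · rw [abs_le]
        have := neg_abs_le (X - y)
        have h3 := le_abs_self (X - y)
        constructor
        · rw [abs_of_nonpos (by linarith)]
          linarith
        · rw [abs_of_nonpos (by linarith)]
          linarith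
      · rw [abs_le]
        constructor
        · rw [abs_of_nonneg (by linarith)]
          linarith
        · rw [abs_of_nonneg (by linarith)]
          linarith
      · rw [show -x - -y = -(x - y) by ring, abs_neg]
    apply key
    · rcases hs i with ⟨h1, h2, _⟩ | ⟨h1, h2, _⟩
      · exact Or.inl ⟨h1, h2⟩
      · exact Or.inr ⟨h1, h2⟩
    · rcases hs j with ⟨h1, h2, _⟩ | ⟨h1, h2, _⟩
      · exact Or.inl ⟨h1, h2⟩
      · exact Or.inr ⟨h1, h2⟩

end E5
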