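import Pool.Agent.Helper1.E5.NOB1
import Pool.Agent.Helper1.E5.TB

/-!
MP_efd95c_co, wheels of type B: no maximal pair.
-/

set_option autoImplicit false
set_option linter.unusedSimpArgs false

open Complex

noncomputable section

namespace E5

theorem polar_sq (r s φ θ : ℝ) :
    dist ((r : ℂ) * AX.e φ) ((s : ℂ) * AX.e (φ + θ)) ^ 2 =
      r ^ 2 + s ^ 2 - 2 * r * s * Real.cos θ := by
  rw [dist_eq_norm, Complex.sq_norm, Complex.normSq_apply]
  simp only [Complex.sub_re, Complex.sub_im, Complex.re_ofReal_mul, Complex.im_ofReal_mul, e_re,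
    e_im, Real.cos_add, Real.sin_add]
  have h1 := Real.sin_sq_add_cos_sq φ
  have h2 := Real.sin_sq_add_cos_sq θ
  generalize Real.sin φ = s1 at *
  generalize Real.cos φ = c1 at *
  generalize Real.sin θ = s2 at *
  generalize Real.cos θ = c2 at *
  linear_combination (r ^ 2 - 2 * r * s * c2 + s ^ 2 * (s2 ^ 2 + c2 ^ 2)) * h1 + s ^ 2 * h2

theorem ang_le (r s φ ψ α β : ℝ) (hr : 0 < r) (hs : 0 < s) (hα : α ≤ Real.pi) (hβ : 0 ≤ β)
    (h : dist ((r : ℂ) * AX.e φ) ((s : ℂ) * AX.e (φ + α)) ^ 2 ≤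
      dist ((r : ℂ) * AX.e ψ) ((s : ℂ) * AX.e (ψ + β)) ^ 2) : α ≤ β := by
  rw [polar_sq, polar_sq] at h
  by_contra hlt
  rw [not_le] at hlt
  have h1 := Real.cos_lt_cos_of_nonneg_of_le_pi hβ hα hlt
  have h2 : 0 < r * s := mul_pos hr hs
  nlinarith

/-- pattern 1: edges `ax`, `by` tight -/
theorem foldB1 (p q : Fin 5 → ℂ) (ra rx ry rb ψ φ b1 b2 b3 th : ℝ) (hra : 0 ≤ ra) (hrx : 0 ≤ rx)
    (hry : 0 ≤ ry) (hrb : 0 ≤ rb) (hb1 : 0 ≤ b1) (hb2 : 0 ≤ b2) (hb3 : 0 ≤ b3)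
    (hth : b2 + b3 ≤ th) (hth2 : b1 + b2 ≤ 2 * Real.pi - b1 - th - b3)
    (p0 : p 0 = 0) (p1 : p 1 = (ra : ℂ) * AX.e ψ) (p2 : p 2 = (rx : ℂ) * AX.e (ψ + b1))
    (p4 : p 4 = (rb : ℂ) * AX.e (ψ + b1 + th)) (p3 : p 3 = (ry : ℂ) * AX.e (ψ + b1 + th + b3))
    (q0 : q 0 = 0) (q1 : q 1 = (ra : ℂ) * AX.e φ) (q2 : q 2 = (rx : ℂ) * AX.e (φ + b1))
    (q3 : q 3 = (ry : ℂ) * AX.e (φ + b1 + b2)) (q4 : q 4 = (rb : ℂ) * AX.e (φ + b1 + b2 + b3)) :
    per p ≤ per q := by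
  set F := ψ + b1 + (th + b2 + b3) / 2 with hF
  set r : Fin 5 → ℝ := ![0, ra, rx, ry, rb] with hr
  set α : Fin 5 → ℝ := ![F, ψ, ψ + b1, ψ + b1 + th + b3, ψ + b1 + th] with hα
  set β : Fin 5 → ℝ := ![F, ψ, ψ + b1, ψ + b1 + b2, ψ + b1 + b2 + b3] with hβ
  have h1 := per_fold r α β F (by
    intro i
    fin_cases i
    · exact le_rfl
    · exact hra
    · exact hrx
    · exact hry
    · exact hrb) (by
    intro i
    fin_cases i
    · left
      show F - Real.pi ≤ F ∧ F ≤ F ∧ F = F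
      exact ⟨by linarith [Real.pi_pos], le_rfl, rfl⟩
    · left
      show F - Real.pi ≤ ψ ∧ ψ ≤ F ∧ ψ = ψ
      exact ⟨by linarith, by linarith, rfl⟩
    · left
      show F - Real.pi ≤ ψ + b1 ∧ ψ + b1 ≤ F ∧ ψ + b1 = ψ + b1
      exact ⟨by linarith, by linarith, rfl⟩
    · right
      show F ≤ ψ + b1 + th + b3 ∧ ψ + b1 + th + b3 ≤ F + Real.pi ∧
        ψ + b1 + b2 = 2 * F - (ψ + b1 + th + b3)
      exact ⟨by linarith, by linarith, by rw [hF]; ring⟩
    · right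
      show F ≤ ψ + b1 + th ∧ ψ + b1 + th ≤ F + Real.pi ∧
        ψ + b1 + b2 + b3 = 2 * F - (ψ + b1 + th)
      exact ⟨by linarith, by linarith, by rw [hF]; ring⟩)
  have e1 : p = fun i => (r i : ℂ) * AX.e (α i) := by
    funext i
    fin_cases i
    · show p 0 = ((0 : ℝ) : ℂ) * AX.e F
      rw [p0]; simp
    · exact p1
    · exact p2
    · exact p3
    · exact p4
  have e2 : q = fun i => AX.e (φ - ψ) * ((r i : ℂ) * AX.e (β i)) := by
    have key : ∀ s t : ℝ, (s : ℂ) * AX.e (φ + t) =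
        AX.e (φ - ψ) * ((s : ℂ) * AX.e (ψ + t)) := by
      intro s t
      rw [show φ + t = (φ - ψ) + (ψ + t) by ring, e_add]
      ring
    funext i
    fin_cases i
    · show q 0 = AX.e (φ - ψ) * (((0 : ℝ) : ℂ) * AX.e F)
      rw [q0]; simp
    · show q 1 = AX.e (φ - ψ) * ((ra : ℂ) * AX.e ψ)
      rw [q1]
      have := key ra 0
      rwa [add_zero, add_zero] at this
    · show q 2 = AX.e (φ - ψ) * ((rx : ℂ) * AX.e (ψ + b1))
      rw [q2]
      exact key rx b1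
    · show q 3 = AX.e (φ - ψ) * ((ry : ℂ) * AX.e (ψ + b1 + b2))
      rw [q3]
      have := key ry (b1 + b2)
      rwa [← add_assoc, ← add_assoc] at this
    · show q 4 = AX.e (φ - ψ) * ((rb : ℂ) * AX.e (ψ + b1 + b2 + b3))
      rw [q4]
      have := key rb (b1 + b2 + b3)
      rwa [← add_assoc, ← add_assoc, ← add_assoc, ← add_assoc] at this
  rw [e1, e2, per_rot (AX.e (φ - ψ)) (e_norm _)]
  exact h1

/-- pattern 2: edges `xb`, `ya` tight -/
theorem foldB2 (p q : Fin 5 → ℂ) (ra rx ry rb ψ φ b1 b2 b3 th : ℝ) (hra : 0 ≤ ra) (hrx : 0 ≤ rx)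
    (hry : 0 ≤ ry) (hrb : 0 ≤ rb) (hb1 : 0 ≤ b1) (hb2 : 0 ≤ b2) (hb3 : 0 ≤ b3)
    (hth : b1 ≤ th) (hth2 : b3 ≤ 2 * Real.pi - (b1 + b2) - th - (b2 + b3))
    (p0 : p 0 = 0) (p1 : p 1 = (ra : ℂ) * AX.e ψ) (p2 : p 2 = (rx : ℂ) * AX.e (ψ + th))
    (p4 : p 4 = (rb : ℂ) * AX.e (ψ + th + (b2 + b3)))
    (p3 : p 3 = (ry : ℂ) * AX.e (ψ - (b1 + b2)))
    (q0 : q 0 = 0) (q1 : q 1 = (ra : ℂ) * AX.e φ) (q2 : q 2 = (rx : ℂ) * AX.e (φ + b1))
    (q3 : q 3 = (ry : ℂ) * AX.e (φ + b1 + b2)) (q4 : q 4 = (rb : ℂ) * AX.e (φ + b1 + b2 + b3)) :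
    per p ≤ per q := by
  set F := ψ + (th - b1) / 2 with hF
  set r : Fin 5 → ℝ := ![0, ra, rx, ry, rb] with hr
  set α : Fin 5 → ℝ := ![F, ψ, ψ + th, ψ - (b1 + b2), ψ + th + (b2 + b3)] with hα
  set β : Fin 5 → ℝ := ![F, ψ, ψ - b1, ψ - (b1 + b2), ψ - (b1 + b2 + b3)] with hβ
  have h1 := per_fold r α β F (by
    intro i
    fin_cases i
    · exact le_rfl
    · exact hra
    · exact hrx
    · exact hry
    · exact hrb) (by
    intro i
    fin_cases i
    · left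
      show F - Real.pi ≤ F ∧ F ≤ F ∧ F = F
      exact ⟨by linarith [Real.pi_pos], le_rfl, rfl⟩
    · left
      show F - Real.pi ≤ ψ ∧ ψ ≤ F ∧ ψ = ψ
      exact ⟨by linarith, by linarith, rfl⟩
    · right
      show F ≤ ψ + th ∧ ψ + th ≤ F + Real.pi ∧ ψ - b1 = 2 * F - (ψ + th)
      exact ⟨by linarith, by linarith, by rw [hF]; ring⟩
    · left
      show F - Real.pi ≤ ψ - (b1 + b2) ∧ ψ - (b1 + b2) ≤ F ∧ ψ - (b1 + b2) = ψ - (b1 + b2)
      exact ⟨by linarith, by linarith, rfl⟩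
    · right
      show F ≤ ψ + th + (b2 + b3) ∧ ψ + th + (b2 + b3) ≤ F + Real.pi ∧
        ψ - (b1 + b2 + b3) = 2 * F - (ψ + th + (b2 + b3))
      exact ⟨by linarith, by linarith, by rw [hF]; ring⟩)
  have e1 : p = fun i => (r i : ℂ) * AX.e (α i) := by
    funext i
    fin_cases i
    · show p 0 = ((0 : ℝ) : ℂ) * AX.e F
      rw [p0]; simp
    · exact p1
    · exact p2
    · exact p3
    · exact p4
  have e2 : q = fun i => AX.e (φ + ψ) * (starRingEnd ℂ) ((r i : ℂ) * AX.e (β i)) := by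
    have key : ∀ s t : ℝ, (s : ℂ) * AX.e (φ + t) =
        AX.e (φ + ψ) * (starRingEnd ℂ) ((s : ℂ) * AX.e (ψ - t)) := by
      intro s t
      rw [map_mul, Complex.conj_ofReal, e_conj, show φ + t = (φ + ψ) + (-(ψ - t)) by ring, e_add]
      ring
    funext i
    fin_cases i
    · show q 0 = AX.e (φ + ψ) * (starRingEnd ℂ) (((0 : ℝ) : ℂ) * AX.e F)
      rw [q0]; simp
    · show q 1 = AX.e (φ + ψ) * (starRingEnd ℂ) ((ra : ℂ) * AX.e ψ)
      rw [q1]
      have := key ra 0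
      rwa [add_zero, sub_zero] at this
    · show q 2 = AX.e (φ + ψ) * (starRingEnd ℂ) ((rx : ℂ) * AX.e (ψ - b1))
      rw [q2]
      exact key rx b1
    · show q 3 = AX.e (φ + ψ) * (starRingEnd ℂ) ((ry : ℂ) * AX.e (ψ - (b1 + b2)))
      rw [q3]
      have := key ry (b1 + b2)
      rwa [← add_assoc] at this
    · show q 4 = AX.e (φ + ψ) * (starRingEnd ℂ) ((rb : ℂ) * AX.e (ψ - (b1 + b2 + b3)))
      rw [q4]
      have := key rb (b1 + b2 + b3)
      rwa [← add_assoc, ← add_assoc] at this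
  rw [e1, e2, per_rot (AX.e (φ + ψ)) (e_norm _), per_conj]
  exact h1

/-- no maximal pair of type B -/
theorem NOB (h4 : Alex 4) (h3 : Alex 3) (hONARC : ST_ONARC) (hLG : ST_LG) (hD2 : ST_D2)
    (hORI : ST_ORI) (hSPK : ST_SPK) (hINHUB : ST_INHUB) (hG1B : ST_G1B) (hNKA : ST_NKA)
    (hKKT : ST_KKT) (hWQ : ST_WQ) (hWP : ST_WP) : ST_NOB := by
  intro p q ap bp aq bq hmax hp hq hf hp0 hq0
  have hg0 : ∀ k, gB k ≠ 0 := by
    intro k
    rcases gB_cases k with ⟨_, h, _⟩ | ⟨_, h, _⟩ | ⟨_, h, _⟩ | ⟨_, h, _⟩ <;> rw [h] <;> decide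
  have hc : ∀ k, 0 < crs (p (gB k)) (p (gB (k + 1))) := by
    intro k
    have := hINHUB 5 p q 4 gB ap bp gQ aq bq 0 hmax hp hq hf (by norm_num) hg0 k
    rwa [hp0, sub_zero, sub_zero] at this
  obtain ⟨s14, s23⟩ := hG1B h4 h3 p q ap bp aq bq hmax hp hq hf
  have hdg : ∀ k, dist (q (gB k)) (q (gB (k + 2))) < dist (p (gB k)) (p (gB (k + 2))) := by
    intro k
    rcases gB_cases k with ⟨_, e0, _, e2, _⟩ | ⟨_, e0, _, e2, _⟩ | ⟨_, e0, _, e2, _⟩ |
      ⟨_, e0, _, e2, _⟩ <;> rw [e0, e2]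
    · exact s14
    · exact s23
    · rw [dist_comm (q 4), dist_comm (p 4)]; exact s14
    · rw [dist_comm (q 3), dist_comm (p 3)]; exact s23
  have hadj := hNKA p q gB ap bp gQ aq bq 0 hmax hp hq hf hg0
  obtain ⟨W, θ, hC⟩ := hKKT 5 p q 4 gB ap bp gQ aq bq hmax hp hq hf
  have hsp := spokesB hONARC hLG hD2 hORI hSPK p q ap bp aq bq W θ hp hq hf hp0 hc hdg hadj hC
  have b0 : gB 0 = 1 := by decide
  have b1' : gB 1 = 2 := by decide
  have b2' : gB 2 = 4 := by decide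
  have b3' : gB 3 = 3 := by decide
  have b4' : gB 4 = 1 := by decide
  have hn : ∀ i : Fin 5, i ≠ 0 → 0 < W i 0 → ‖q i‖ = ‖p i‖ ∧ 0 < ‖q i‖ := by
    intro i hi h
    have h1 := hC.comp i 0 h.ne'
    rw [hq0, hp0, dist_zero_right, dist_zero_right] at h1
    refine ⟨h1, norm_pos_iff.2 ?_⟩
    intro h2
    exact hi (hq.inj (by rw [h2, hq0]))
  obtain ⟨n1, r1⟩ := hn 1 (by decide) (by have := hsp 0; rwa [b0] at this)
  obtain ⟨n2, r2⟩ := hn 2 (by decide) (by have := hsp 1; rwa [b1'] at this)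
  obtain ⟨n4, r4⟩ := hn 4 (by decide) (by have := hsp 2; rwa [b2'] at this)
  obtain ⟨n3, r3⟩ := hn 3 (by decide) (by have := hsp 3; rwa [b3'] at this)
  obtain ⟨φ, b1, b2, b3, hb1, hb2, hb3, hbs, _, _, _, _, q1, q2, q3, q4, _⟩ := hWQ q aq bq hq hq0
  obtain ⟨ψ, t, ht, _, hψ, hts, hpol, _, _, _, _, _⟩ := hWP p gB ap bp hp hp0 hc
  have P0 := hpol 0
  have P1 := hpol 1
  have P2 := hpol 2
  have P3 := hpol 3
  have P4 := hpol 4
  rw [b0] at P0
  rw [b1'] at P1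
  rw [b2'] at P2
  rw [b3'] at P3
  rw [b4'] at P4
  rw [← n1] at P0 P4
  rw [← n2] at P1
  rw [← n4] at P2
  rw [← n3] at P3
  have a1 : ψ 1 = ψ 0 + t 0 := by have := hψ 0; norm_num at this; exact this
  have a2 : ψ 2 = ψ 1 + t 1 := by have := hψ 1; norm_num at this; exact this
  have a3 : ψ 3 = ψ 2 + t 2 := by have := hψ 2; norm_num at this; exact this
  have a4 : ψ 4 = ψ 3 + t 3 := by have := hψ 3; norm_num at this; exact this
  generalize hra : ‖q 1‖ = ra at *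
  generalize hrx : ‖q 2‖ = rx at *
  generalize hry : ‖q 3‖ = ry at *
  generalize hrb : ‖q 4‖ = rb at *
  have hsq : ∀ i j, dist (q i) (q j) ^ 2 ≤ dist (p i) (p j) ^ 2 := fun i j =>
    pow_le_pow_left₀ dist_nonneg (hmax.ctr i j) 2
  -- angles
  have Lax : b1 ≤ t 0 := by
    refine ang_le ra rx φ (ψ 0) b1 (t 0) r1 r2 (by linarith) (ht 0).1.le ?_
    rw [← q1, ← q2, ← a1, ← P0, ← P1]
    exact hsq 1 2
  have Lxb : b2 + b3 ≤ t 1 := by
    refine ang_le rx rb (φ + b1) (ψ 1) (b2 + b3) (t 1) r2 r4 (by linarith) (ht 1).1.le ?_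
    rw [← q2, show φ + b1 + (b2 + b3) = φ + b1 + b2 + b3 by ring, ← q4, ← a2, ← P1, ← P2]
    exact hsq 2 4
  have Lby : b3 ≤ t 2 := by
    refine ang_le ry rb (φ + b1 + b2) (ψ 2) b3 (t 2) r3 r4 (by linarith) (ht 2).1.le ?_
    rw [polar_sq ry rb (ψ 2), show ry ^ 2 + rb ^ 2 - 2 * ry * rb * Real.cos (t 2) =
      rb ^ 2 + ry ^ 2 - 2 * rb * ry * Real.cos (t 2) by ring, ← polar_sq rb ry (ψ 2), ← q3, ← q4,
      ← a3, ← P2, ← P3, dist_comm (p 4)]
    exact hsq 3 4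
  have Lya : b1 + b2 ≤ t 3 := by
    refine ang_le ra ry φ (ψ 3) (b1 + b2) (t 3) r1 r3 (by linarith) (ht 3).1.le ?_
    rw [polar_sq ra ry (ψ 3), show ra ^ 2 + ry ^ 2 - 2 * ra * ry * Real.cos (t 3) =
      ry ^ 2 + ra ^ 2 - 2 * ry * ra * Real.cos (t 3) by ring, ← polar_sq ry ra (ψ 3), ← add_assoc,
      ← q1, ← q3, ← a4, ← P3, ← P4, dist_comm (p 3)]
    exact hsq 1 3
  -- tight edges
  have Tax : W 1 2 ≠ 0 → t 0 = b1 := by
    intro h
    have h1 := hC.comp 1 2 h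
    refine le_antisymm ?_ Lax
    refine ang_le ra rx (ψ 0) φ (t 0) b1 r1 r2 (ht 0).2.le hb1.le ?_
    rw [← q1, ← q2, ← a1, ← P0, ← P1, h1]
  have Txb : W 4 2 ≠ 0 → t 1 = b2 + b3 := by
    intro h
    have h1 := hC.comp 4 2 h
    refine le_antisymm ?_ Lxb
    refine ang_le rx rb (ψ 1) (φ + b1) (t 1) (b2 + b3) r2 r4 (ht 1).2.le (by linarith) ?_
    rw [← q2, show φ + b1 + (b2 + b3) = φ + b1 + b2 + b3 by ring, ← q4, ← a2, ← P1, ← P2,
      dist_comm (p 2), ← h1, dist_comm (q 4)]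
  have Tby : W 4 3 ≠ 0 → t 2 = b3 := by
    intro h
    have h1 := hC.comp 4 3 h
    refine le_antisymm ?_ Lby
    refine ang_le ry rb (ψ 2) (φ + b1 + b2) (t 2) b3 r3 r4 (ht 2).2.le hb3.le ?_
    rw [polar_sq ry rb (ψ 2), show ry ^ 2 + rb ^ 2 - 2 * ry * rb * Real.cos (t 2) =
      rb ^ 2 + ry ^ 2 - 2 * rb * ry * Real.cos (t 2) by ring, ← polar_sq rb ry (ψ 2), ← q3, ← q4,
      ← a3, ← P2, ← P3, ← h1, dist_comm (q 4)]
  have Tya : W 1 3 ≠ 0 → t 3 = b1 + b2 := by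
    intro h
    have h1 := hC.comp 1 3 h
    refine le_antisymm ?_ Lya
    refine ang_le ra ry (ψ 3) φ (t 3) (b1 + b2) r1 r3 (ht 3).2.le (by linarith) ?_
    rw [polar_sq ra ry (ψ 3), show ra ^ 2 + ry ^ 2 - 2 * ra * ry * Real.cos (t 3) =
      ry ^ 2 + ra ^ 2 - 2 * ry * ra * Real.cos (t 3) by ring, ← polar_sq ry ra (ψ 3), ← add_assoc,
      ← q1, ← q3, ← a4, ← P3, ← P4, dist_comm (p 3), h1]
  -- end vertices have tight rim edges
  have hW14 : W 1 4 = 0 := by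
    by_contra h
    exact absurd (hC.comp _ _ h) (ne_of_lt s14)
  have hW41 : W 4 1 = 0 := by rw [hC.symm]; exact hW14
  have hO : ∀ j k : ℤ, 0 < j → j < k → k < 5 → 0 < crs (q (gQ j)) (q (gQ k)) := by
    intro j k h1 h2 h3'
    have := hORI 5 q 5 gQ aq bq hq 0 j k h1 h2 (by push_cast; linarith)
    rw [show gQ 0 = 0 by decide, hq0, sub_zero, sub_zero] at this
    exact this
  have g1 : gQ 1 = 1 := by decide
  have g2 : gQ 2 = 2 := by decide
  have g3 : gQ 3 = 3 := by decide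
  have g4 : gQ 4 = 4 := by decide
  have o12 := hO 1 2 (by norm_num) (by norm_num) (by norm_num)
  have o13 := hO 1 3 (by norm_num) (by norm_num) (by norm_num)
  have o24 := hO 2 4 (by norm_num) (by norm_num) (by norm_num)
  have o34 := hO 3 4 (by norm_num) (by norm_num) (by norm_num)
  rw [g1, g2] at o12
  rw [g1, g3] at o13
  rw [g2, g4] at o24
  rw [g3, g4] at o34
  obtain ⟨c1, _, _, c4⟩ := cgQ q
  have hA : 0 < W 1 2 ∨ 0 < W 1 3 := by
    have h1 := hC.eqq 1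
    rw [c1, Fin.sum_univ_five, hC.diag 1, hW14, hq0] at h1
    unfold zz at h1
    rw [hq0] at h1
    have h2 := congrArg (fun z => crs (q 1) z) h1
    simp only [crs_eq, Complex.add_re, Complex.add_im, Complex.re_ofReal_mul,
      Complex.im_ofReal_mul, Complex.sub_re, Complex.sub_im, Complex.ofReal_zero, zero_mul,
      Complex.zero_re, Complex.zero_im] at h2
    rw [crs_eq] at o12 o13
    have h3' : W 1 2 * ((q 1).re * (q 2).im - (q 1).im * (q 2).re) +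
        W 1 3 * ((q 1).re * (q 3).im - (q 1).im * (q 3).re) =
        om (q 1) (q 2) * ((q 1).re * (q 2).im - (q 1).im * (q 2).re) := by
      linarith
    have h4' := om_pos1 hLG hD2 hq (i := 1) (j := 2) (by decide)
    by_contra hno
    push Not at hno
    have e1 : W 1 2 = 0 := le_antisymm hno.1 (hC.nonneg 1 2)
    have e2 : W 1 3 = 0 := le_antisymm hno.2 (hC.nonneg 1 3)
    rw [e1, e2] at h3'
    have := mul_pos h4' o12
    linarith
  have hB : 0 < W 4 2 ∨ 0 < W 4 3 := by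
    have h1 := hC.eqq 4
    rw [c4, Fin.sum_univ_five, hC.diag 4, hW41, hq0] at h1
    unfold zz at h1
    rw [hq0] at h1
    have h2 := congrArg (fun z => crs (q 4) z) h1
    simp only [crs_eq, Complex.add_re, Complex.add_im, Complex.re_ofReal_mul,
      Complex.im_ofReal_mul, Complex.sub_re, Complex.sub_im, Complex.ofReal_zero, zero_mul,
      Complex.zero_re, Complex.zero_im] at h2
    rw [crs_eq] at o24 o34
    have h3' : W 4 2 * ((q 2).re * (q 4).im - (q 2).im * (q 4).re) +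
        W 4 3 * ((q 3).re * (q 4).im - (q 3).im * (q 4).re) =
        om (q 4) (q 3) * ((q 3).re * (q 4).im - (q 3).im * (q 4).re) := by
      linarith
    have h4' := om_pos1 hLG hD2 hq (i := 4) (j := 3) (by decide)
    by_contra hno
    push Not at hno
    have e1 : W 4 2 = 0 := le_antisymm hno.1 (hC.nonneg 4 2)
    have e2 : W 4 3 = 0 := le_antisymm hno.2 (hC.nonneg 4 3)
    rw [e1, e2] at h3'
    have := mul_pos h4' o34
    linarith
  have hpos := hmax.pos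
  -- the diagonal `ab` of `p` is slack
  have hab : ¬ dist (p 1) (p 4) ^ 2 ≤ dist (q 1) (q 4) ^ 2 := by
    intro h
    have := abs_le_of_sq_le_sq h dist_nonneg
    rw [abs_of_nonneg dist_nonneg] at this
    linarith
  have hqab : dist (q 1) (q 4) ^ 2 = ra ^ 2 + rb ^ 2 - 2 * ra * rb * Real.cos (b1 + b2 + b3) := by
    rw [q1, q4, show φ + b1 + b2 + b3 = φ + (b1 + b2 + b3) by ring, polar_sq]
  rcases hA with hA | hA
  · have e0 := Tax hA.ne'
    rcases hB with hB | hB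
    · have e1 := Txb hB.ne'
      apply hab
      rw [hqab, P0, P2, a2, a1, e0, e1,
        show ψ 0 + b1 + (b2 + b3) = ψ 0 + (b1 + b2 + b3) by ring, polar_sq]
    · have e2 := Tby hB.ne'
      have := foldB1 p q ra rx ry rb (ψ 0) φ b1 b2 b3 (t 1) r1.le r2.le r3.le r4.le hb1.le
        hb2.le hb3.le Lxb (by linarith) hp0 P0 (by rw [P1, a1, e0]) (by rw [P2, a2, a1, e0])
        (by rw [P3, a3, a2, a1, e0, e2]) hq0 q1 q2 q3 q4
      linarith
  · have e3 := Tya hA.ne'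
    rcases hB with hB | hB
    · have e1 := Txb hB.ne'
      have := foldB2 p q ra rx ry rb (ψ 0) φ b1 b2 b3 (t 0) r1.le r2.le r3.le r4.le hb1.le
        hb2.le hb3.le Lax (by linarith) hp0 P0 (by rw [P1, a1]) (by rw [P2, a2, a1, e1])
        (by
          rw [P3]
          have h5 : ψ 3 = (ψ 0 - (b1 + b2)) + 2 * Real.pi := by
            rw [a3, a2, a1]; linarith
          rw [h5, e_add]
          have h6 : AX.e (2 * Real.pi) = 1 := by
            unfold AX.e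
            have := Complex.exp_two_pi_mul_I
            push_cast
            exact this
          rw [h6, mul_one]) hq0 q1 q2 q3 q4
      linarith
    · have e2 := Tby hB.ne'
      apply hab
      have h5 : dist (p 1) (p 4) ^ 2 = rb ^ 2 + ra ^ 2 - 2 * rb * ra * Real.cos (b1 + b2 + b3) := by
        rw [dist_comm, P4, P2, a4, a3, e2, e3,
          show ψ 2 + b3 + (b1 + b2) = ψ 2 + (b1 + b2 + b3) by ring, polar_sq]
      rw [hqab, h5]
      linarith

end E5
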