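import Pool.Agent.Helper1.E5.LG1
import Pool.Agent.Helper71.E5.WStmts2

/-!
MP_efd95c_co, wheels of type B: all spokes are tight.
-/

set_option autoImplicit false
set_option linter.unusedSimpArgs false

open Complex

noncomputable section

namespace E5

theorem lstQ : lst gQ 5 Finset.univ = [0, 1, 2, 3, 4] := by
  unfold lst gQ
  simp [List.range_succ]

theorem cgQ (q : Fin 5 → ℂ) :
    cgrad q (lst gQ 5 Finset.univ) 1 = zz q 1 2 + zz q 1 0 ∧
    cgrad q (lst gQ 5 Finset.univ) 2 = zz q 2 3 + zz q 2 1 ∧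
    cgrad q (lst gQ 5 Finset.univ) 3 = zz q 3 4 + zz q 3 2 ∧
    cgrad q (lst gQ 5 Finset.univ) 4 = zz q 4 0 + zz q 4 3 := by
  rw [lstQ]
  unfold cgrad zz
  refine ⟨?_, ?_, ?_, ?_⟩
  · simp [List.rotate, om_comm (q 0) (q 1)]
    ring
  · simp [List.rotate, om_comm (q 1) (q 2)]
    ring
  · simp [List.rotate, om_comm (q 2) (q 3)]
    ring
  · simp [List.rotate, om_comm (q 3) (q 4)]
    ring

theorem gB_cases (k : ℤ) : (k % 4 = 0 ∧ gB k = 1 ∧ gB (k + 1) = 2 ∧ gB (k + 2) = 4 ∧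
      gB (k - 1) = 3) ∨
    (k % 4 = 1 ∧ gB k = 2 ∧ gB (k + 1) = 4 ∧ gB (k + 2) = 3 ∧ gB (k - 1) = 1) ∨
    (k % 4 = 2 ∧ gB k = 4 ∧ gB (k + 1) = 3 ∧ gB (k + 2) = 1 ∧ gB (k - 1) = 2) ∨
    (k % 4 = 3 ∧ gB k = 3 ∧ gB (k + 1) = 1 ∧ gB (k + 2) = 2 ∧ gB (k - 1) = 4) := by
  unfold gB
  rcases (by omega : k % 4 = 0 ∨ k % 4 = 1 ∨ k % 4 = 2 ∨ k % 4 = 3) with h | h | h | h
  · left
    refine ⟨h, ?_, ?_, ?_, ?_⟩
    · simp [h]
    · simp [(by omega : (k + 1) % 4 = 1)]
    · simp [(by omega : (k + 2) % 4 = 2)]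
    · simp [(by omega : (k - 1) % 4 = 3)]
  · right; left
    refine ⟨h, ?_, ?_, ?_, ?_⟩
    · simp [h]
    · simp [(by omega : (k + 1) % 4 = 2)]
    · simp [(by omega : (k + 2) % 4 = 3)]
    · simp [(by omega : (k - 1) % 4 = 0)]
  · right; right; left
    refine ⟨h, ?_, ?_, ?_, ?_⟩
    · simp [h]
    · simp [(by omega : (k + 1) % 4 = 3)]
    · simp [(by omega : (k + 2) % 4 = 0)]
    · simp [(by omega : (k - 1) % 4 = 1)]
  · right; right; right
    refine ⟨h, ?_, ?_, ?_, ?_⟩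
    · simp [h]
    · simp [(by omega : (k + 1) % 4 = 0)]
    · simp [(by omega : (k + 2) % 4 = 1)]
    · simp [(by omega : (k - 1) % 4 = 2)]

theorem om_dist {x y x' y' : ℂ} (h : dist x y = dist x' y') : om x y = om x' y' := by
  unfold om
  rw [h]

/-- one vertex with unstressed spoke: the load of `q` is `w` times the sum of the two edge
forces -/
theorem unstressed {p q : Fin 5 → ℂ} {M : ℕ} {g : ℤ → Fin 5} {a b : ℤ → ℝ}
    {W : Fin 5 → Fin 5 → ℝ} {θ : Finset (Fin 5) → ℝ} {Lq : List (Fin 5)}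
    (hC : Crit p q M g a b Lq W θ) (i u v d : Fin 5) (w : ℝ)
    (h1 : i ≠ 0) (h2 : u ≠ 0) (h3 : v ≠ 0) (h4 : d ≠ 0) (h5 : i ≠ u) (h6 : i ≠ v) (h7 : i ≠ d)
    (h8 : u ≠ v) (h9 : u ≠ d) (h10 : v ≠ d) (hi0 : W i 0 = 0) (hid : W i d = 0)
    (hou : 0 < om (p i) (p u)) (hov : 0 < om (p i) (p v))
    (hu : W i u = w * om (p i) (p u)) (hv : W i v = w * om (p i) (p v)) :
    cgrad q Lq i = (w : ℂ) * (zz q i u + zz q i v) := by
  rw [← hC.eqq i, sum5 i u v d h5 h6 h7 h8 h9 h10 h1 h2 h3 h4, hi0, hid, hC.diag i]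
  by_cases hw : w = 0
  · rw [hu, hv, hw]
    simp
  · have e1 : om (p i) (p u) = om (q i) (q u) :=
      (om_dist (hC.comp i u (by rw [hu]; exact mul_ne_zero hw hou.ne'))).symm
    have e2 : om (p i) (p v) = om (q i) (q v) :=
      (om_dist (hC.comp i v (by rw [hv]; exact mul_ne_zero hw hov.ne'))).symm
    rw [hu, hv, e1, e2]
    unfold zz
    push_cast
    ring

/-- type B: all spokes are stressed -/
theorem spokesB (hONARC : ST_ONARC) (hLG : ST_LG) (hD2 : ST_D2) (hORI : ST_ORI)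
    (hSPK : ST_SPK) (p q : Fin 5 → ℂ) (ap bp aq bq : ℤ → ℝ)
    (W : Fin 5 → Fin 5 → ℝ) (θ : Finset (Fin 5) → ℝ)
    (hp : HD p 4 gB ap bp) (hq : HD q 5 gQ aq bq) (hf : ∀ k, aq k < bq k) (hp0 : p 0 = 0)
    (hc : ∀ k, 0 < crs (p (gB k)) (p (gB (k + 1))))
    (hdg : ∀ k, dist (q (gB k)) (q (gB (k + 2))) < dist (p (gB k)) (p (gB (k + 2))))
    (hadj : ∀ k, ap k < bp k ∨ ap (k + 1) < bp (k + 1))
    (hC : Crit p q 4 gB ap bp (lst gQ 5 Finset.univ) W θ) :
    ∀ k, 0 < W (gB k) 0 := by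
  have hg0 : ∀ k, gB k ≠ 0 := by
    intro k
    rcases gB_cases k with ⟨_, h, _⟩ | ⟨_, h, _⟩ | ⟨_, h, _⟩ | ⟨_, h, _⟩ <;> rw [h] <;> decide
  rcases hSPK p q gB ap bp aq bq W θ hp hq hf hp0 hg0 hc hdg hadj hC with h | h
  · exact h
  · exfalso
    obtain ⟨k, w, _, _, _, h0, hn, hv, _, _, _⟩ := h
    have hd : W (gB k) (gB (k + 2)) = 0 := by
      by_contra h'
      exact absurd (hC.comp _ _ h') (ne_of_lt (hdg k))
    obtain ⟨c1, c2, c3, c4⟩ := cgQ q
    rcases gB_cases k with ⟨_, e0, e1, e2, e3⟩ | ⟨_, e0, e1, e2, e3⟩ | ⟨_, e0, e1, e2, e3⟩ |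
      ⟨_, e0, e1, e2, e3⟩
    · rw [e0] at h0 hn hv hd
      rw [e1] at hn
      rw [e2] at hd
      rw [e3] at hv
      have h1 := unstressed hC 1 3 2 4 w (by decide) (by decide) (by decide) (by decide)
        (by decide) (by decide) (by decide) (by decide) (by decide) (by decide) h0 hd
        (om_pos1 hLG hD2 hp (by decide)) (om_pos1 hLG hD2 hp (by decide)) hv hn
      rw [c1] at h1
      have h2 := (lemG_eq hONARC hLG hD2 hORI hq hf 1 3 (by norm_num) (by norm_num) w).1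
      have q1 : gQ 1 = 1 := by decide
      have q2 : gQ (1 + 1) = 2 := by decide
      have q3 : gQ 3 = 3 := by decide
      have q0 : gQ (1 - 1) = 0 := by decide
      rw [q1, q2, q3, q0] at h2
      exact h2 h1
    · rw [e0] at h0 hn hv hd
      rw [e1] at hn
      rw [e2] at hd
      rw [e3] at hv
      have h1 := unstressed hC 2 4 1 3 w (by decide) (by decide) (by decide) (by decide)
        (by decide) (by decide) (by decide) (by decide) (by decide) (by decide) h0 hd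
        (om_pos1 hLG hD2 hp (by decide)) (om_pos1 hLG hD2 hp (by decide)) hn hv
      rw [c2] at h1
      have h2 := (lemG_eq hONARC hLG hD2 hORI hq hf 2 4 (by norm_num) (by norm_num) w).2
      have q1 : gQ 2 = 2 := by decide
      have q2 : gQ (2 + 1) = 3 := by decide
      have q3 : gQ 4 = 4 := by decide
      have q0 : gQ (2 - 1) = 1 := by decide
      rw [q1, q2, q3, q0] at h2
      exact h2 h1
    · rw [e0] at h0 hn hv hd
      rw [e1] at hn
      rw [e2] at hd
      rw [e3] at hv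
      have h1 := unstressed hC 4 2 3 1 w (by decide) (by decide) (by decide) (by decide)
        (by decide) (by decide) (by decide) (by decide) (by decide) (by decide) h0 hd
        (om_pos1 hLG hD2 hp (by decide)) (om_pos1 hLG hD2 hp (by decide)) hv hn
      rw [c4] at h1
      have h2 := (lemG_eq hONARC hLG hD2 hORI hq hf 4 7 (by norm_num) (by norm_num) w).2
      have q1 : gQ 4 = 4 := by decide
      have q2 : gQ (4 + 1) = 0 := by decide
      have q3 : gQ 7 = 2 := by decide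
      have q0 : gQ (4 - 1) = 3 := by decide
      rw [q1, q2, q3, q0] at h2
      exact h2 h1
    · rw [e0] at h0 hn hv hd
      rw [e1] at hn
      rw [e2] at hd
      rw [e3] at hv
      have h1 := unstressed hC 3 1 4 2 w (by decide) (by decide) (by decide) (by decide)
        (by decide) (by decide) (by decide) (by decide) (by decide) (by decide) h0 hd
        (om_pos1 hLG hD2 hp (by decide)) (om_pos1 hLG hD2 hp (by decide)) hn hv
      rw [c3] at h1
      have h2 := (lemG_eq hONARC hLG hD2 hORI hq hf 3 6 (by norm_num) (by norm_num) w).1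
      have q1 : gQ 3 = 3 := by decide
      have q2 : gQ (3 + 1) = 4 := by decide
      have q3 : gQ 6 = 1 := by decide
      have q0 : gQ (3 - 1) = 2 := by decide
      rw [q1, q2, q3, q0] at h2
      exact h2 h1

end E5
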