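import Pool.Agent.Helper1.E5.Tour4
import Pool.Agent.Helper71.E5.Cyc

/-!
MP_efd95c_co, wheels: which spokes are stressed.
-/

set_option autoImplicit false

open Complex

noncomputable section

namespace E5

theorem spk_case (p : Fin 5 → ℂ) (W : Fin 5 → Fin 5 → ℝ) (g0 g1 g2 g3 : Fin 5) (w1 w3 : ℝ)
    (h01 : g0 ≠ g1) (h02 : g0 ≠ g2) (h03 : g0 ≠ g3) (h12 : g1 ≠ g2) (h13 : g1 ≠ g3)
    (h23 : g2 ≠ g3) (z0 : g0 ≠ 0) (z1 : g1 ≠ 0) (z2 : g2 ≠ 0) (z3 : g3 ≠ 0)
    (hp0 : p 0 = 0) (hnn : ∀ i j, 0 ≤ W i j) (hsy : ∀ i j, W i j = W j i)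
    (hdi : ∀ i, W i i = 0) (hW02 : W g0 g2 = 0) (hW13 : W g1 g3 = 0)
    (hw1 : w1 ≤ 1) (hw3 : w3 ≤ 1)
    (c01 : 0 < crs (p g0) (p g1)) (c12 : 0 < crs (p g1) (p g2)) (c23 : 0 < crs (p g2) (p g3))
    (c30 : 0 < crs (p g3) (p g0)) (c02 : 0 ≤ crs (p g0) (p g2))
    (A012 : 0 < crs (p g1 - p g0) (p g2 - p g0)) (A123 : 0 < crs (p g2 - p g1) (p g3 - p g1))
    (A230 : 0 < crs (p g3 - p g2) (p g0 - p g2)) (A301 : 0 < crs (p g0 - p g3) (p g1 - p g3))
    (e0 : ∑ j, (W g0 j : ℂ) * (p g0 - p j) =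
      ((w1 * om (p g0) (p g1) : ℝ) : ℂ) * (p g0 - p g1) +
      ((w3 * om (p g0) (p g3) : ℝ) : ℂ) * (p g0 - p g3) +
      ((((1 - w1) + (1 - w3)) * om (p g0) (p g2) : ℝ) : ℂ) * (p g0 - p g2))
    (e1 : ∑ j, (W g1 j : ℂ) * (p g1 - p j) =
      ((w1 * om (p g0) (p g1) : ℝ) : ℂ) * (p g1 - p g0) +
      ((w1 * om (p g1) (p g2) : ℝ) : ℂ) * (p g1 - p g2))
    (e2 : ∑ j, (W g2 j : ℂ) * (p g2 - p j) =
      ((w1 * om (p g1) (p g2) : ℝ) : ℂ) * (p g2 - p g1) +
      ((w3 * om (p g2) (p g3) : ℝ) : ℂ) * (p g2 - p g3) +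
      ((((1 - w1) + (1 - w3)) * om (p g0) (p g2) : ℝ) : ℂ) * (p g2 - p g0))
    (e3 : ∑ j, (W g3 j : ℂ) * (p g3 - p j) =
      ((w3 * om (p g2) (p g3) : ℝ) : ℂ) * (p g3 - p g2) +
      ((w3 * om (p g0) (p g3) : ℝ) : ℂ) * (p g3 - p g0)) :
    (0 < W g0 0 ∧ 0 < W g1 0 ∧ 0 < W g2 0 ∧ 0 < W g3 0) ∨
      (W g0 0 = 0 ∧ W g1 0 = 0 ∧ W g2 0 = 0 ∧ W g3 0 = 0) ∨
      (W g1 0 = 0 ∧ W g0 g1 = w1 * om (p g0) (p g1) ∧ W g1 g2 = w1 * om (p g1) (p g2) ∧
        0 < W g0 0 ∧ 0 < W g2 0) := by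
  rw [sum5 g0 g1 g2 g3 h01 h02 h03 h12 h13 h23 z0 z1 z2 z3] at e0 e1 e2 e3
  rw [hp0, sub_zero, hdi, hW02] at e0
  rw [hp0, sub_zero, hdi, hW13, hsy g1 g0] at e1
  rw [hp0, sub_zero, hdi, hsy g2 g0, hW02, hsy g2 g1] at e2
  rw [hp0, sub_zero, hdi, hsy g3 g1, hW13, hsy g3 g2, hsy g3 g0] at e3
  refine spk_core (p g0) (p g1) (p g2) (p g3) (W g0 g1) (W g1 g2) (W g2 g3) (W g0 g3)
    (W g0 0) (W g1 0) (W g2 0) (W g3 0) (w1 * om (p g0) (p g1)) (w1 * om (p g1) (p g2))
    (w3 * om (p g2) (p g3)) (w3 * om (p g0) (p g3)) (((1 - w1) + (1 - w3)) * om (p g0) (p g2))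
    c01 c12 c23 c30 c02 A012 A123 A230 A301
    (mul_nonneg (by linarith) (om_nonneg1 _ _)) (hnn g1 0) ?_ ?_ ?_ ?_
  · rw [← e0]; push_cast; ring
  · rw [← e1]; push_cast; ring
  · rw [← e2]; push_cast; ring
  · rw [← e3]; push_cast; ring

/-- either all spokes are stressed, or exactly one rim vertex `g k` has an unstressed spoke and
its forces are proportional to the forces of its two rim edges -/
def ST_SPK : Prop := ∀ (p q : Fin 5 → ℂ) (g : ℤ → Fin 5) (ap bp aq bq : ℤ → ℝ)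
  (W : Fin 5 → Fin 5 → ℝ) (θ : Finset (Fin 5) → ℝ),
  HD p 4 g ap bp → HD q 5 gQ aq bq → (∀ k, aq k < bq k) → p 0 = 0 →
  (∀ k, g k ≠ 0) → (∀ k, 0 < crs (p (g k)) (p (g (k + 1)))) →
  (∀ k, dist (q (g k)) (q (g (k + 2))) < dist (p (g k)) (p (g (k + 2)))) →
  (∀ k, ap k < bp k ∨ ap (k + 1) < bp (k + 1)) →
  Crit p q 4 g ap bp (lst gQ 5 Finset.univ) W θ →
  (∀ k, 0 < W (g k) 0) ∨ ∃ (k : ℤ) (w : ℝ), 0 ≤ w ∧ w ≤ 1 ∧ (ap k < bp k → w = 1) ∧
    W (g k) 0 = 0 ∧ W (g k) (g (k + 1)) = w * om (p (g k)) (p (g (k + 1))) ∧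
    W (g k) (g (k - 1)) = w * om (p (g k)) (p (g (k - 1))) ∧
    0 ≤ crs (p (g (k - 1))) (p (g (k + 1))) ∧ 0 < W (g (k + 1)) 0 ∧ 0 < W (g (k - 1)) 0

theorem SPK (hORI : ST_ORI) (hCGPOS : ST_CGPOS) : ST_SPK := by
  intro p q g ap bp aq bq W θ hp hq hfull hp0 hg0 hc hdg hadj hC
  -- periodicity
  have hper : ∀ k, g (k + 4) = g k := fun k => by have := hp.gper k; simpa using this
  have g4 : g 4 = g 0 := by have := hper 0; simpa using this
  have g5 : g 5 = g 1 := by have := hper 1; norm_num at this; exact this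
  have g6 : g 6 = g 2 := by have := hper 2; norm_num at this; exact this
  have g7 : g 7 = g 3 := by have := hper 3; norm_num at this; exact this
  have gm : g (-1) = g 3 := by have := hper (-1); norm_num at this; exact this.symm
  have hne : ∀ i j : ℤ, i < j → j < i + 4 → g i ≠ g j := by
    intro i j hij hji h
    obtain ⟨z, hz⟩ := hp.ginj i j h
    push_cast at hz
    omega
  have h01 := hne 0 1 (by norm_num) (by norm_num)
  have h02 := hne 0 2 (by norm_num) (by norm_num)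
  have h03 := hne 0 3 (by norm_num) (by norm_num)
  have h12 := hne 1 2 (by norm_num) (by norm_num)
  have h13 := hne 1 3 (by norm_num) (by norm_num)
  have h23 := hne 2 3 (by norm_num) (by norm_num)
  have hW : ∀ k, W (g k) (g (k + 2)) = 0 := by
    intro k
    by_contra h
    exact absurd (hC.comp _ _ h) (ne_of_lt (hdg k))
  have hW02 : W (g 0) (g 2) = 0 := by have := hW 0; simpa using this
  have hW13 : W (g 1) (g 3) = 0 := by have := hW 1; norm_num at this; exact this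
  have c01 : 0 < crs (p (g 0)) (p (g 1)) := by have := hc 0; simpa using this
  have c12 : 0 < crs (p (g 1)) (p (g 2)) := by have := hc 1; norm_num at this; exact this
  have c23 : 0 < crs (p (g 2)) (p (g 3)) := by have := hc 2; norm_num at this; exact this
  have c30 : 0 < crs (p (g 3)) (p (g 0)) := by
    have := hc 3; norm_num at this; rw [g4] at this; exact this
  have hO := hORI 5 p 4 g ap bp hp
  have A012 := hO 0 1 2 (by norm_num) (by norm_num) (by norm_num)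
  have A123 := hO 1 2 3 (by norm_num) (by norm_num) (by norm_num)
  have A230 := hO 2 3 4 (by norm_num) (by norm_num) (by norm_num)
  have A301 := hO 3 4 5 (by norm_num) (by norm_num) (by norm_num)
  rw [g4] at A230 A301
  rw [g5] at A301
  -- all spokes unstressed is impossible
  have hall : ¬ (W (g 0) 0 = 0 ∧ W (g 1) 0 = 0 ∧ W (g 2) 0 = 0 ∧ W (g 3) 0 = 0) := by
    rintro ⟨v0, v1, v2, v3⟩
    have h1 := hC.eqq 0
    rw [sum5 (g 0) (g 1) (g 2) (g 3) h01 h02 h03 h12 h13 h23 (hg0 0) (hg0 1) (hg0 2) (hg0 3),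
      hC.diag 0, hC.symm 0 (g 0), hC.symm 0 (g 1), hC.symm 0 (g 2), hC.symm 0 (g 3), v0, v1, v2,
      v3] at h1
    have h2 := hCGPOS 5 q gQ aq bq hq hfull 0
    apply h2
    rw [← h1]
    simp
  -- weights
  have hind0 : ∀ (S : Finset (Fin 5)) (i : Fin 5), 0 ≤ ind S i ∧ ind S i ≤ 1 := by
    intro S i
    unfold ind
    split_ifs <;> norm_num
  have hw : ∀ i : Fin 5, 0 ≤ ∑ S, θ S * ind S i ∧ ∑ S, θ S * ind S i ≤ 1 := by
    intro i
    constructor
    · exact Finset.sum_nonneg fun S _ => mul_nonneg (hC.th0 S) (hind0 S i).1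
    · rw [← hC.th1]
      exact Finset.sum_le_sum fun S _ => mul_le_of_le_one_right (hC.th0 S) (hind0 S i).2
  have hwf : ∀ k, ap k < bp k → ∑ S, θ S * ind S (g k) = 1 := by
    intro k hk
    rw [← hC.th1]
    refine Finset.sum_congr rfl fun S _ => ?_
    by_cases hS : θ S = 0
    · rw [hS]; ring
    · have := (hC.adm S hS).1 k hk
      unfold ind
      rw [if_pos this, mul_one]
  have hom : ∀ (c : Finset (Fin 5) → ℝ) (x : ℝ), ∑ S, θ S * (c S * x) = (∑ S, θ S * c S) * x := by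
    intro c x
    rw [Finset.sum_mul]
    exact Finset.sum_congr rfl fun S _ => by ring
  have hom2 : ∀ (i j : Fin 5), ∑ S, θ S * ((1 - ind S i) + (1 - ind S j)) =
      ((1 - ∑ S, θ S * ind S i) + (1 - ∑ S, θ S * ind S j)) := by
    intro i j
    have h1 : ∑ S, θ S * ((1 - ind S i) + (1 - ind S j)) =
        2 * ∑ S, θ S - ∑ S, θ S * ind S i - ∑ S, θ S * ind S j := by
      rw [Finset.mul_sum, ← Finset.sum_sub_distrib, ← Finset.sum_sub_distrib]
      exact Finset.sum_congr rfl fun S _ => by ring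
    rw [h1, hC.th1]
    ring
  have hcyc : (ap 0 < bp 0 ∧ ap 2 < bp 2) ∨ (ap 1 < bp 1 ∧ ap 3 < bp 3) := by
    have a4 : ap 4 < bp 4 → ap 0 < bp 0 := by
      intro h
      have h1 := hp.aper 0
      have h2 := hp.bper 0
      norm_num at h1 h2
      linarith
    have q0 := hadj 0
    have q1 := hadj 1
    have q2 := hadj 2
    have q3 := hadj 3
    norm_num at q0 q1 q2 q3
    by_cases f0 : ap 0 < bp 0
    · by_cases f2 : ap 2 < bp 2
      · exact Or.inl ⟨f0, f2⟩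
      · right
        exact ⟨q1.resolve_right f2, q2.resolve_left f2⟩
    · right
      exact ⟨q0.resolve_left f0, q3.resolve_right (fun h => f0 (a4 h))⟩
  rcases hcyc with ⟨f0, f2⟩ | ⟨f1, f3⟩
  · -- kinks at most at the positions 1 and 3
    set w1 := ∑ S, θ S * ind S (g 1) with hw1
    set w3 := ∑ S, θ S * ind S (g 3) with hw3
    have hcg : ∀ S, θ S ≠ 0 → g 0 ∈ S ∧ g 2 ∈ S := fun S hS =>
      ⟨(hC.adm S hS).1 0 f0, (hC.adm S hS).1 2 f2⟩
    have e0 := hC.eqp (g 0)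
    rw [wsum3 θ (fun S => ind S (g 1) * om (p (g 0)) (p (g 1)))
      (fun S => ind S (g 3) * om (p (g 0)) (p (g 3)))
      (fun S => ((1 - ind S (g 1)) + (1 - ind S (g 3))) * om (p (g 0)) (p (g 2)))
      (fun S => cgrad p (lst g 4 S) (g 0)) (p (g 0) - p (g 1)) (p (g 0) - p (g 3))
      (p (g 0) - p (g 2)) (fun S hS => (cg_lst4 p g S h01 h02 h03 h12 h13 h23 (hcg S hS).1
        (hcg S hS).2).1)] at e0
    have e2 := hC.eqp (g 2)
    rw [wsum3 θ (fun S => ind S (g 1) * om (p (g 1)) (p (g 2)))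
      (fun S => ind S (g 3) * om (p (g 2)) (p (g 3)))
      (fun S => ((1 - ind S (g 1)) + (1 - ind S (g 3))) * om (p (g 0)) (p (g 2)))
      (fun S => cgrad p (lst g 4 S) (g 2)) (p (g 2) - p (g 1)) (p (g 2) - p (g 3))
      (p (g 2) - p (g 0)) (fun S hS => (cg_lst4 p g S h01 h02 h03 h12 h13 h23 (hcg S hS).1
        (hcg S hS).2).2.2.1)] at e2
    have e1 := hC.eqp (g 1)
    rw [wsum3 θ (fun S => ind S (g 1) * om (p (g 0)) (p (g 1)))
      (fun S => ind S (g 1) * om (p (g 1)) (p (g 2)))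
      (fun _ => 0)
      (fun S => cgrad p (lst g 4 S) (g 1)) (p (g 1) - p (g 0)) (p (g 1) - p (g 2))
      0 (fun S hS => by
        rw [(cg_lst4 p g S h01 h02 h03 h12 h13 h23 (hcg S hS).1 (hcg S hS).2).2.1]
        ring)] at e1
    have e3 := hC.eqp (g 3)
    rw [wsum3 θ (fun S => ind S (g 3) * om (p (g 2)) (p (g 3)))
      (fun S => ind S (g 3) * om (p (g 0)) (p (g 3)))
      (fun _ => 0)
      (fun S => cgrad p (lst g 4 S) (g 3)) (p (g 3) - p (g 2)) (p (g 3) - p (g 0))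
      0 (fun S hS => by
        rw [(cg_lst4 p g S h01 h02 h03 h12 h13 h23 (hcg S hS).1 (hcg S hS).2).2.2.2]
        ring)] at e3
    simp only [hom, hom2, mul_zero, add_zero] at e0 e1 e2 e3
    rw [← hw1] at e0 e1 e2
    rw [← hw3] at e0 e2 e3
    rcases le_total 0 (crs (p (g 0)) (p (g 2))) with hs | hs
    · rcases spk_case p W (g 0) (g 1) (g 2) (g 3) w1 w3 h01 h02 h03 h12 h13 h23 (hg0 0) (hg0 1)
        (hg0 2) (hg0 3) hp0 hC.nonneg hC.symm hC.diag hW02 hW13 (hw _).2 (hw _).2 c01 c12 c23 c30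
        hs A012 A123 A230 A301 e0 e1 e2 e3 with h | h | h
      · left
        intro k
        obtain ⟨r, hr, hr2⟩ := exists_nat (M := 4) (by norm_num) hp.gper k
        rw [← hr2]
        rcases (by omega : r = 0 ∨ r = 1 ∨ r = 2 ∨ r = 3) with h' | h' | h' | h' <;> subst h'
        · exact h.1
        · exact h.2.1
        · exact h.2.2.1
        · exact h.2.2.2
      · exact absurd h hall
      · right
        refine ⟨1, w1, (hw _).1, (hw _).2, hwf 1, h.1, ?_, ?_, ?_, ?_, ?_⟩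
        · norm_num; exact h.2.2.1
        · norm_num; rw [hC.symm, h.2.1, om_comm]
        · norm_num; exact hs
        · norm_num; exact h.2.2.2.2
        · norm_num; exact h.2.2.2.1
    · have hs' : 0 ≤ crs (p (g 2)) (p (g 0)) := by
        rw [crs_eq] at hs ⊢
        linarith
      rcases spk_case p W (g 2) (g 3) (g 0) (g 1) w3 w1 h23 h02.symm h12.symm h03.symm h13.symm
        h01 (hg0 2) (hg0 3)
        (hg0 0) (hg0 1) hp0 hC.nonneg hC.symm hC.diag (by rw [hC.symm]; exact hW02)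
        (by rw [hC.symm]; exact hW13) (hw _).2 (hw _).2 c23 c30 c01 c12
        hs' A230 A301 A012 A123
        (by rw [e2, om_comm (p (g 2)) (p (g 1)), om_comm (p (g 2)) (p (g 0))]; push_cast; ring)
        (by rw [e3, om_comm (p (g 3)) (p (g 0))])
        (by rw [e0, om_comm (p (g 3)) (p (g 0)), om_comm (p (g 2)) (p (g 0))]; push_cast; ring)
        (by rw [e1, om_comm (p (g 2)) (p (g 1))]) with h | h | h
      · left
        intro k
        obtain ⟨r, hr, hr2⟩ := exists_nat (M := 4) (by norm_num) hp.gper k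
        rw [← hr2]
        rcases (by omega : r = 0 ∨ r = 1 ∨ r = 2 ∨ r = 3) with h' | h' | h' | h' <;> subst h'
        · exact h.2.2.1
        · exact h.2.2.2
        · exact h.1
        · exact h.2.1
      · exact absurd ⟨h.2.2.1, h.2.2.2, h.1, h.2.1⟩ hall
      · right
        refine ⟨3, w3, (hw _).1, (hw _).2, hwf 3, h.1, ?_, ?_, ?_, ?_, ?_⟩
        · norm_num; rw [g4]; exact h.2.2.1
        · norm_num; rw [hC.symm, h.2.1, om_comm]
        · norm_num; rw [g4]; exact hs'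
        · norm_num; rw [g4]; exact h.2.2.2.2
        · norm_num; exact h.2.2.2.1
  · -- kinks at most at the positions 0 and 2
    set w0 := ∑ S, θ S * ind S (g 0) with hw0
    set w2 := ∑ S, θ S * ind S (g 2) with hw2
    have hcg : ∀ S, θ S ≠ 0 → g 1 ∈ S ∧ g 3 ∈ S := fun S hS =>
      ⟨(hC.adm S hS).1 1 f1, (hC.adm S hS).1 3 f3⟩
    have e1 := hC.eqp (g 1)
    rw [wsum3 θ (fun S => ind S (g 2) * om (p (g 1)) (p (g 2)))
      (fun S => ind S (g 0) * om (p (g 0)) (p (g 1)))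
      (fun S => ((1 - ind S (g 2)) + (1 - ind S (g 0))) * om (p (g 1)) (p (g 3)))
      (fun S => cgrad p (lst g 4 S) (g 1)) (p (g 1) - p (g 2)) (p (g 1) - p (g 0))
      (p (g 1) - p (g 3)) (fun S hS => (cg_lst4' p g S h01 h02 h03 h12 h13 h23 (hcg S hS).1
        (hcg S hS).2).1)] at e1
    have e3 := hC.eqp (g 3)
    rw [wsum3 θ (fun S => ind S (g 2) * om (p (g 2)) (p (g 3)))
      (fun S => ind S (g 0) * om (p (g 0)) (p (g 3)))
      (fun S => ((1 - ind S (g 2)) + (1 - ind S (g 0))) * om (p (g 1)) (p (g 3)))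
      (fun S => cgrad p (lst g 4 S) (g 3)) (p (g 3) - p (g 2)) (p (g 3) - p (g 0))
      (p (g 3) - p (g 1)) (fun S hS => (cg_lst4' p g S h01 h02 h03 h12 h13 h23 (hcg S hS).1
        (hcg S hS).2).2.2.1)] at e3
    have e2 := hC.eqp (g 2)
    rw [wsum3 θ (fun S => ind S (g 2) * om (p (g 1)) (p (g 2)))
      (fun S => ind S (g 2) * om (p (g 2)) (p (g 3)))
      (fun _ => 0)
      (fun S => cgrad p (lst g 4 S) (g 2)) (p (g 2) - p (g 1)) (p (g 2) - p (g 3))
      0 (fun S hS => by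
        rw [(cg_lst4' p g S h01 h02 h03 h12 h13 h23 (hcg S hS).1 (hcg S hS).2).2.1]
        ring)] at e2
    have e0 := hC.eqp (g 0)
    rw [wsum3 θ (fun S => ind S (g 0) * om (p (g 0)) (p (g 3)))
      (fun S => ind S (g 0) * om (p (g 0)) (p (g 1)))
      (fun _ => 0)
      (fun S => cgrad p (lst g 4 S) (g 0)) (p (g 0) - p (g 3)) (p (g 0) - p (g 1))
      0 (fun S hS => by
        rw [(cg_lst4' p g S h01 h02 h03 h12 h13 h23 (hcg S hS).1 (hcg S hS).2).2.2.2]
        ring)] at e0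
    simp only [hom, hom2, mul_zero, add_zero] at e0 e1 e2 e3
    rw [← hw0] at e0 e1 e3
    rw [← hw2] at e1 e2 e3
    rcases le_total 0 (crs (p (g 1)) (p (g 3))) with hs | hs
    · rcases spk_case p W (g 1) (g 2) (g 3) (g 0) w2 w0 h12 h13 h01.symm h23 h02.symm h03.symm
        (hg0 1) (hg0 2) (hg0 3) (hg0 0) hp0 hC.nonneg hC.symm hC.diag hW13
        (by rw [hC.symm]; exact hW02) (hw _).2 (hw _).2 c12 c23 c30 c01
        hs A123 A230 A301 A012
        (by rw [e1, om_comm (p (g 1)) (p (g 0))])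
        e2
        (by rw [e3, om_comm (p (g 3)) (p (g 0))])
        (by rw [e0, om_comm (p (g 3)) (p (g 0)), om_comm (p (g 1)) (p (g 0))]) with h | h | h
      · left
        intro k
        obtain ⟨r, hr, hr2⟩ := exists_nat (M := 4) (by norm_num) hp.gper k
        rw [← hr2]
        rcases (by omega : r = 0 ∨ r = 1 ∨ r = 2 ∨ r = 3) with h' | h' | h' | h' <;> subst h'
        · exact h.2.2.2
        · exact h.1
        · exact h.2.1
        · exact h.2.2.1
      · exact absurd ⟨h.2.2.2, h.1, h.2.1, h.2.2.1⟩ hall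
      · right
        refine ⟨2, w2, (hw _).1, (hw _).2, hwf 2, h.1, ?_, ?_, ?_, ?_, ?_⟩
        · norm_num; exact h.2.2.1
        · norm_num; rw [hC.symm, h.2.1, om_comm]
        · norm_num; exact hs
        · norm_num; exact h.2.2.2.2
        · norm_num; exact h.2.2.2.1
    · have hs' : 0 ≤ crs (p (g 3)) (p (g 1)) := by
        rw [crs_eq] at hs ⊢
        linarith
      rcases spk_case p W (g 3) (g 0) (g 1) (g 2) w0 w2 h03.symm h13.symm h23.symm h01 h02 h12
        (hg0 3) (hg0 0) (hg0 1) (hg0 2) hp0 hC.nonneg hC.symm hC.diag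
        (by rw [hC.symm]; exact hW13) hW02 (hw _).2 (hw _).2 c30 c01 c12 c23
        hs' A301 A012 A123 A230
        (by rw [e3, om_comm (p (g 3)) (p (g 0)), om_comm (p (g 3)) (p (g 2)),
              om_comm (p (g 3)) (p (g 1))]; push_cast; ring)
        (by rw [e0, om_comm (p (g 3)) (p (g 0))])
        (by rw [e1, om_comm (p (g 3)) (p (g 1))]; push_cast; ring)
        (by rw [e2, om_comm (p (g 3)) (p (g 2))]) with h | h | h
      · left
        intro k
        obtain ⟨r, hr, hr2⟩ := exists_nat (M := 4) (by norm_num) hp.gper k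
        rw [← hr2]
        rcases (by omega : r = 0 ∨ r = 1 ∨ r = 2 ∨ r = 3) with h' | h' | h' | h' <;> subst h'
        · exact h.2.1
        · exact h.2.2.1
        · exact h.2.2.2
        · exact h.1
      · exact absurd ⟨h.2.1, h.2.2.1, h.2.2.2, h.1⟩ hall
      · right
        refine ⟨0, w0, (hw _).1, (hw _).2, hwf 0, h.1, ?_, ?_, ?_, ?_, ?_⟩
        · norm_num; exact h.2.2.1
        · norm_num; rw [gm, hC.symm, h.2.1, om_comm]
        · norm_num; rw [gm]; exact hs'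
        · norm_num; exact h.2.2.2.2
        · norm_num; rw [gm]; exact h.2.2.2.1

end E5
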