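import Pool.Agent.Helper1.E5.SPKCore

/-!
MP_efd95c_co, wheels: the stresses of the spokes (pure algebra).
-/

set_option autoImplicit false

open Complex

noncomputable section

namespace E5


/-- forces at the four rim points; kinks only at `P1`, `P3`; the chord `P0 P2` -/
theorem spk_core2 (P0 P1 P2 P3 : ℂ) (W01 W12 W23 W30 V0 V1 V2 V3 k01 k12 k23 k30 h : ℝ)
    (c01 : 0 < crs P0 P1) (c12 : 0 < crs P1 P2) (c23 : 0 < crs P2 P3) (c30 : 0 < crs P3 P0)
    (c02 : 0 ≤ crs P0 P2)
    (A012 : 0 < crs (P1 - P0) (P2 - P0)) (A123 : 0 < crs (P2 - P1) (P3 - P1))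
    (A230 : 0 < crs (P3 - P2) (P0 - P2)) (A301 : 0 < crs (P0 - P3) (P1 - P3))
    (hh : 0 ≤ h) (hV1 : 0 ≤ V1)
    (eq0 : (W01 : ℂ) * (P0 - P1) + (W30 : ℂ) * (P0 - P3) + (V0 : ℂ) * P0 =
      (k01 : ℂ) * (P0 - P1) + (k30 : ℂ) * (P0 - P3) + (h : ℂ) * (P0 - P2))
    (eq1 : (W01 : ℂ) * (P1 - P0) + (W12 : ℂ) * (P1 - P2) + (V1 : ℂ) * P1 =
      (k01 : ℂ) * (P1 - P0) + (k12 : ℂ) * (P1 - P2))
    (eq2 : (W12 : ℂ) * (P2 - P1) + (W23 : ℂ) * (P2 - P3) + (V2 : ℂ) * P2 =
      (k12 : ℂ) * (P2 - P1) + (k23 : ℂ) * (P2 - P3) + (h : ℂ) * (P2 - P0))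
    (eq3 : (W23 : ℂ) * (P3 - P2) + (W30 : ℂ) * (P3 - P0) + (V3 : ℂ) * P3 =
      (k23 : ℂ) * (P3 - P2) + (k30 : ℂ) * (P3 - P0)) :
    (0 < V0 ∧ 0 < V1 ∧ 0 < V2 ∧ 0 < V3) ∨ (V0 = 0 ∧ V1 = 0 ∧ V2 = 0 ∧ V3 = 0) ∨
      (V1 = 0 ∧ W01 = k01 ∧ W12 = k12 ∧ 0 < V0 ∧ 0 < V2 ∧
        ((0 < crs P0 P2 ∧ 0 < V3) ∨ (V3 = 0 ∧ W23 = k23 ∧ W30 = k30))) := by
  have hcr : ∀ (r : ℝ) (u v : ℂ), crs ((r : ℂ) * u) v = r * crs u v := by
    intro r u v
    rw [crs_eq, crs_eq, Complex.re_ofReal_mul, Complex.im_ofReal_mul]
    ring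
  have hadd : ∀ u v w : ℂ, crs (u + v) w = crs u w + crs v w := by
    intro u v w
    rw [crs_eq, crs_eq, crs_eq, Complex.add_re, Complex.add_im]
    ring
  -- torques
  have t0 : (k30 - W30) * crs P3 P0 = (k01 - W01) * crs P0 P1 + h * crs P0 P2 := by
    have := congrArg (fun z => crs z P0) eq0
    simp only [hadd, hcr] at this
    simp only [crs_eq, Complex.sub_re, Complex.sub_im] at this ⊢
    linarith
  have t1 : (k01 - W01) * crs P0 P1 = (k12 - W12) * crs P1 P2 := by
    have := congrArg (fun z => crs z P1) eq1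
    simp only [hadd, hcr] at this
    simp only [crs_eq, Complex.sub_re, Complex.sub_im] at this ⊢
    linarith
  have t3 : (k23 - W23) * crs P2 P3 = (k30 - W30) * crs P3 P0 := by
    have := congrArg (fun z => crs z P3) eq3
    simp only [hadd, hcr] at this
    simp only [crs_eq, Complex.sub_re, Complex.sub_im] at this ⊢
    linarith
  -- radial parts
  have r1 : V1 * (crs P0 P1 + crs P1 P2) =
      ((k01 - W01) + (k12 - W12)) * crs (P1 - P0) (P2 - P0) := by
    have := congrArg (fun z => crs z (P2 - P0)) eq1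
    simp only [hadd, hcr] at this
    simp only [crs_eq, Complex.sub_re, Complex.sub_im] at this ⊢
    linarith
  have r3 : V3 * (crs P2 P3 + crs P3 P0) =
      ((k23 - W23) + (k30 - W30)) * crs (P3 - P2) (P0 - P2) := by
    have := congrArg (fun z => crs z (P0 - P2)) eq3
    simp only [hadd, hcr] at this
    simp only [crs_eq, Complex.sub_re, Complex.sub_im] at this ⊢
    linarith
  have r0 : V0 * (crs P3 P0 + crs P0 P1) =
      ((k01 - W01) + (k30 - W30)) * crs (P0 - P3) (P1 - P3) +
        h * (crs P0 P1 + crs P1 P2 + crs P2 P3 + crs P3 P0) := by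
    have := congrArg (fun z => crs z (P1 - P3)) eq0
    simp only [hadd, hcr] at this
    simp only [crs_eq, Complex.sub_re, Complex.sub_im] at this ⊢
    linarith
  have r2 : V2 * (crs P1 P2 + crs P2 P3) =
      ((k12 - W12) + (k23 - W23)) * crs (P2 - P1) (P3 - P1) +
        h * (crs P0 P1 + crs P1 P2 + crs P2 P3 + crs P3 P0) := by
    have := congrArg (fun z => crs z (P3 - P1)) eq2
    simp only [hadd, hcr] at this
    simp only [crs_eq, Complex.sub_re, Complex.sub_im] at this ⊢
    linarith
  set E0 := k01 - W01 with hE0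
  set E1 := k12 - W12 with hE1
  set E2 := k23 - W23 with hE2
  set E3 := k30 - W30 with hE3
  clear_value E0 E1 E2 E3
  generalize crs P0 P1 = x01 at *
  generalize crs P1 P2 = x12 at *
  generalize crs P2 P3 = x23 at *
  generalize crs P3 P0 = x30 at *
  generalize crs P0 P2 = x02 at *
  generalize crs (P1 - P0) (P2 - P0) = a012 at *
  generalize crs (P2 - P1) (P3 - P1) = a123 at *
  generalize crs (P3 - P2) (P0 - P2) = a230 at *
  generalize crs (P0 - P3) (P1 - P3) = a301 at *
  have hsum : 0 ≤ E0 + E1 := by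
    have h1 : 0 ≤ (E0 + E1) * a012 := by rw [← r1]; positivity
    exact nonneg_of_mul_nonneg_left h1 A012
  have hE0n : 0 ≤ E0 := by
    by_contra hneg
    rw [not_le] at hneg
    have h2 : E1 * x12 < 0 := by rw [← t1]; nlinarith
    have h3 : E1 < 0 := by
      by_contra h4
      rw [not_lt] at h4
      have := mul_nonneg h4 c12.le
      linarith
    linarith
  have hE1n : 0 ≤ E1 := by
    have h2 : 0 ≤ E1 * x12 := by rw [← t1]; positivity
    exact nonneg_of_mul_nonneg_left h2 c12
  have hE3' : 0 ≤ E3 * x30 := by rw [t0]; positivity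
  have hE3n : 0 ≤ E3 := nonneg_of_mul_nonneg_left hE3' c30
  have hE2n : 0 ≤ E2 := by
    have h2 : 0 ≤ E2 * x23 := by rw [t3]; exact hE3'
    exact nonneg_of_mul_nonneg_left h2 c23
  rcases hE0n.lt_or_eq with hpos | hz
  · left
    have hE1p : 0 < E1 := by
      have h2 : 0 < E1 * x12 := by rw [← t1]; positivity
      exact pos_of_mul1 h2 c12.le
    have hE3p : 0 < E3 := by
      have h2 : 0 < E3 * x30 := by rw [t0]; positivity
      exact pos_of_mul1 h2 c30.le
    have hE2p : 0 < E2 := by
      have h2 : 0 < E2 * x23 := by rw [t3]; positivity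
      exact pos_of_mul1 h2 c23.le
    refine ⟨?_, ?_, ?_, ?_⟩
    · have h2 : 0 < V0 * (x30 + x01) := by rw [r0]; positivity
      exact pos_of_mul1 h2 (by linarith)
    · have h2 : 0 < V1 * (x01 + x12) := by rw [r1]; positivity
      exact pos_of_mul1 h2 (by linarith)
    · have h2 : 0 < V2 * (x12 + x23) := by rw [r2]; positivity
      exact pos_of_mul1 h2 (by linarith)
    · have h2 : 0 < V3 * (x23 + x30) := by rw [r3]; positivity
      exact pos_of_mul1 h2 (by linarith)
  · right
    have hE1z : E1 = 0 := by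
      have h2 : E1 * x12 = 0 := by rw [← t1, ← hz]; ring
      rcases mul_eq_zero.1 h2 with h3 | h3
      · exact h3
      · linarith
    have hV1z : V1 = 0 := by
      have h2 : V1 * (x01 + x12) = 0 := by rw [r1, ← hz, hE1z]; ring
      rcases mul_eq_zero.1 h2 with h3 | h3
      · exact h3
      · linarith
    rcases hh.lt_or_eq with hhp | hhz
    · right
      refine ⟨hV1z, by linarith, by linarith, ?_, ?_, ?_⟩
      · have h2 : 0 < V0 * (x30 + x01) := by
          rw [r0]
          have : 0 ≤ (E0 + E3) * a301 := by positivity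
          have : 0 < h * (x01 + x12 + x23 + x30) := by positivity
          linarith
        exact pos_of_mul1 h2 (by linarith)
      · have h2 : 0 < V2 * (x12 + x23) := by
          rw [r2]
          have : 0 ≤ (E1 + E2) * a123 := by positivity
          have : 0 < h * (x01 + x12 + x23 + x30) := by positivity
          linarith
        exact pos_of_mul1 h2 (by linarith)
      · rcases c02.lt_or_eq with hcp | hcz
        · left
          refine ⟨hcp, ?_⟩
          have hE3p : 0 < E3 := by
            have h2 : 0 < E3 * x30 := by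
              rw [t0, ← hz]
              have := mul_pos hhp hcp
              linarith
            exact pos_of_mul1 h2 c30.le
          have hE2p : 0 < E2 := by
            have h2 : 0 < E2 * x23 := by rw [t3]; positivity
            exact pos_of_mul1 h2 c23.le
          have h2 : 0 < V3 * (x23 + x30) := by rw [r3]; positivity
          exact pos_of_mul1 h2 (by linarith)
        · right
          have hE3z : E3 = 0 := by
            have h2 : E3 * x30 = 0 := by rw [t0, ← hz, ← hcz]; ring
            rcases mul_eq_zero.1 h2 with h3 | h3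
            · exact h3
            · linarith
          have hE2z : E2 = 0 := by
            have h2 : E2 * x23 = 0 := by rw [t3, hE3z]; ring
            rcases mul_eq_zero.1 h2 with h3 | h3
            · exact h3
            · linarith
          refine ⟨?_, by linarith, by linarith⟩
          have h2 : V3 * (x23 + x30) = 0 := by rw [r3, hE3z, hE2z]; ring
          rcases mul_eq_zero.1 h2 with h3 | h3
          · exact h3
          · linarith
    · left
      have hE3z : E3 = 0 := by
        have h2 : E3 * x30 = 0 := by rw [t0, ← hz, ← hhz]; ring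
        rcases mul_eq_zero.1 h2 with h3 | h3
        · exact h3
        · linarith
      have hE2z : E2 = 0 := by
        have h2 : E2 * x23 = 0 := by rw [t3, hE3z]; ring
        rcases mul_eq_zero.1 h2 with h3 | h3
        · exact h3
        · linarith
      refine ⟨?_, hV1z, ?_, ?_⟩
      · have h2 : V0 * (x30 + x01) = 0 := by rw [r0, ← hz, hE3z, ← hhz]; ring
        rcases mul_eq_zero.1 h2 with h3 | h3
        · exact h3
        · linarith
      · have h2 : V2 * (x12 + x23) = 0 := by rw [r2, hE1z, hE2z, ← hhz]; ring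
        rcases mul_eq_zero.1 h2 with h3 | h3
        · exact h3
        · linarith
      · have h2 : V3 * (x23 + x30) = 0 := by rw [r3, hE3z, hE2z]; ring
        rcases mul_eq_zero.1 h2 with h3 | h3
        · exact h3
        · linarith

end E5
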