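import Pool.Agent.Helper1.E5.SPKCore2
import Pool.Agent.Helper71.E5.WStmts3

/-!
MP_efd95c_co, wheels of type C: the stresses of the spokes, row SPKR.
-/

set_option autoImplicit false
set_option linter.unusedSimpArgs false

open Complex

noncomputable section

namespace E5

theorem omc_of_ch {r s t r' s' t' : ℝ} (h : ch r s t = ch r' s' t') :
    omc r s t = omc r' s' t' := by
  unfold omc
  rw [h]

theorem ch_comm1 (r s t : ℝ) : ch r s t = ch s r t := by
  unfold ch
  congr 1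
  ring

theorem omc_comm1 (r s t : ℝ) : omc r s t = omc s r t := omc_of_ch (ch_comm1 r s t)

theorem omc_nonneg1 (r s t : ℝ) : 0 ≤ omc r s t := by
  unfold omc ch
  positivity

/-- polar form of the force of one pair in the frame of the vertex -/
theorem frc1 (hTRI : ST_TRI) (r s t : ℝ) (hr : 0 < r) (hs : 0 < s) (ht : 0 < t)
    (htp : t < Real.pi) (hc : ch r s t < 2) :
    0 < omc r s t ∧ 0 < Real.cos (hd r s t) ∧
    omc r s t * (r - s * Real.cos t) * Real.cos (hd r s t) = Real.cos (un r s t) ∧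
    omc r s t * (s * Real.sin t) * Real.cos (hd r s t) = Real.sin (un r s t) := by
  obtain ⟨h1, h2, h3, h4, _, _, h7, h8, _⟩ := hTRI r s t hr hs ht htp hc
  have hcos : 0 < Real.cos (hd r s t) :=
    Real.cos_pos_of_mem_Ioo ⟨by linarith [Real.pi_pos], h4⟩
  have hsq : Real.sqrt (4 - ch r s t ^ 2) = 2 * Real.cos (hd r s t) := by
    have : 4 - ch r s t ^ 2 = (2 * Real.cos (hd r s t)) ^ 2 := by
      have h9 := Real.sin_sq_add_cos_sq (hd r s t)
      rw [h2]
      nlinarith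
    rw [this, Real.sqrt_sq (by positivity)]
  have ho : omc r s t = 1 / (ch r s t * Real.cos (hd r s t)) := by
    unfold omc
    rw [hsq]
    field_simp
  refine ⟨by rw [ho]; positivity, hcos, ?_, ?_⟩
  · rw [ho, h7]
    field_simp
  · rw [ho, h8]
    field_simp

/-- Lemma G, angles -/
theorem lgAng (ds du dv be al : ℝ) (hdu0 : 0 ≤ du) (hbe : 0 < be)
    (hal : 0 < al) (h1 : du < be + ds) (h2 : al + be + ds + dv < Real.pi) (hds : 0 ≤ ds)
    (hdv : 0 ≤ dv) :
    Real.cos ds * Real.sin al < Real.cos dv * Real.sin be + Real.cos du * Real.sin (al + be) := by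
  have c1 : Real.cos (be + ds) ≤ Real.cos du :=
    Real.cos_le_cos_of_nonneg_of_le_pi hdu0 (by linarith) h1.le
  have s1 : 0 < Real.sin be := Real.sin_pos_of_pos_of_lt_pi hbe (by linarith)
  have s2 : 0 < Real.sin (al + be) := Real.sin_pos_of_pos_of_lt_pi (by linarith) (by linarith)
  have c2 : -Real.cos (al + be + ds) < Real.cos dv := by
    rw [← Real.cos_pi_sub]
    exact Real.cos_lt_cos_of_nonneg_of_le_pi hdv (by linarith) (by linarith)
  have key : Real.cos (be + ds) * Real.sin (al + be) - Real.cos ds * Real.sin al =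
      Real.sin be * Real.cos (al + be + ds) := by
    rw [Real.cos_add, Real.sin_add, Real.cos_add (al + be) ds, Real.cos_add al be,
      Real.sin_add al be]
    have hb := Real.sin_sq_add_cos_sq be
    generalize Real.sin be = sb at *
    generalize Real.cos be = cb at *
    generalize Real.sin al = sa at *
    generalize Real.cos al = ca at *
    generalize Real.sin ds = sd at *
    generalize Real.cos ds = cd at *
    linear_combination (sa * cd) * hb
  have h3 : Real.cos (be + ds) * Real.sin (al + be) ≤ Real.cos du * Real.sin (al + be) :=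
    mul_le_mul_of_nonneg_right c1 s2.le
  have h4 : 0 < Real.sin be * (Real.cos (al + be + ds) + Real.cos dv) :=
    mul_pos s1 (by linarith)
  nlinarith

/-- Lemma G at a vertex whose spoke is unstressed -/
theorem lgV (hTRI : ST_TRI) (r s u v t1 t2 t3 w : ℝ) (hr : 0 < r) (hs : 0 < s) (hu : 0 < u)
    (hv : 0 < v) (h1 : 0 < t1) (h1' : t1 < Real.pi) (h2 : 0 < t2) (h2' : t2 < Real.pi)
    (h3 : 0 < t3) (h3' : t3 < Real.pi) (c1 : ch r s t1 < 2) (c2 : ch r u t2 < 2)
    (c3 : ch r v t3 < 2)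
    (he : ((w * omc r s t1 : ℝ) : ℂ) * ((r : ℂ) - s * AX.e t1) +
      ((w * omc r u t2 : ℝ) : ℂ) * ((r : ℂ) - u * AX.e t2) =
      (omc r v t3 : ℂ) * ((r : ℂ) - v * AX.e (-t3)) + (omc r s t1 : ℂ) * ((r : ℂ) - s * AX.e t1))
    (g1 : un r u t2 < un r s t1) (g2 : hd r u t2 < un r u t2 + un r v t3 + hd r v t3)
    (g3 : un r s t1 + hd r s t1 + (un r v t3 + hd r v t3) < Real.pi) : False := by
  obtain ⟨o1, k1, x1, y1⟩ := frc1 hTRI r s t1 hr hs h1 h1' c1
  obtain ⟨o2, k2, x2, y2⟩ := frc1 hTRI r u t2 hr hu h2 h2' c2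
  obtain ⟨o3, k3, x3, y3⟩ := frc1 hTRI r v t3 hr hv h3 h3' c3
  obtain ⟨_, _, d1, _, p1, _⟩ := hTRI r s t1 hr hs h1 h1' c1
  obtain ⟨_, _, d2, _, p2, _⟩ := hTRI r u t2 hr hu h2 h2' c2
  obtain ⟨_, _, d3, _, p3, _⟩ := hTRI r v t3 hr hv h3 h3' c3
  have hG := lgAng (hd r v t3) (hd r u t2) (hd r s t1) (un r u t2 + un r v t3)
    (un r s t1 - un r u t2) d2.le (by linarith) (by linarith) g2 (by linarith) d3.le d1.le
  rw [show un r s t1 - un r u t2 + (un r u t2 + un r v t3) = un r s t1 + un r v t3 by ring] at hG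
  have hre := congrArg Complex.re he
  have him := congrArg Complex.im he
  simp only [Complex.add_re, Complex.add_im, Complex.re_ofReal_mul, Complex.im_ofReal_mul,
    Complex.sub_re, Complex.sub_im, Complex.ofReal_re, Complex.ofReal_im, e_re, e_im,
    Real.cos_neg, Real.sin_neg] at hre him
  -- components
  set X1 := omc r s t1 * (r - s * Real.cos t1) with hX1
  set Y1 := omc r s t1 * (s * Real.sin t1) with hY1
  set X2 := omc r u t2 * (r - u * Real.cos t2) with hX2
  set Y2 := omc r u t2 * (u * Real.sin t2) with hY2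
  set X3 := omc r v t3 * (r - v * Real.cos t3) with hX3
  set Y3 := omc r v t3 * (v * Real.sin t3) with hY3
  have e1 : w * X1 + w * X2 = X3 + X1 := by
    rw [hX1, hX2, hX3]; linarith
  have e2 : w * Y1 + w * Y2 = Y1 - Y3 := by
    rw [hY1, hY2, hY3]; linarith
  have e3 : (X3 + X1) * (Y1 + Y2) = (X1 + X2) * (Y1 - Y3) := by
    rw [← e1, ← e2]; ring
  clear_value X1 Y1 X2 Y2 X3 Y3
  rw [Real.sin_sub, Real.sin_add, Real.sin_add, ← x1, ← y1, ← x2, ← y2, ← x3, ← y3] at hG
  have hk : 0 < Real.cos (hd r s t1) * Real.cos (hd r u t2) * Real.cos (hd r v t3) := by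
    positivity
  have h5 : (X3 * Y1 + X3 * Y2 + X1 * Y2 - X2 * Y1 + X1 * Y3 + X2 * Y3) = 0 := by
    linarith
  have h6 : Real.cos (hd r s t1) * Real.cos (hd r u t2) * Real.cos (hd r v t3) *
      (X3 * Y1 + X3 * Y2 + X1 * Y2 - X2 * Y1 + X1 * Y3 + X2 * Y3) = 0 := by rw [h5, mul_zero]
  linarith

/-- equal spokes and rim edges at an end vertex: impossible (V3) -/
theorem v3End (hTRI : ST_TRI) (r s u v t1 t2 t3 : ℝ) (hr : 0 < r) (hr2 : r < 2) (hs : 0 < s)
    (hu : 0 < u)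
    (hv : 0 < v) (h1 : 0 < t1) (h1' : t1 < Real.pi) (h2 : 0 < t2) (h2' : t2 < Real.pi)
    (h3 : 0 < t3) (h3' : t3 < Real.pi) (c1 : ch r s t1 < 2) (c2 : ch r u t2 < 2)
    (c3 : ch r v t3 < 2)
    (he : (omc r u t2 : ℂ) * ((r : ℂ) - u * AX.e t2) +
      (omc r v t3 : ℂ) * ((r : ℂ) - v * AX.e t3) =
      ((1 / Real.cos (h0 r) : ℝ) : ℂ) + (omc r s t1 : ℂ) * ((r : ℂ) - s * AX.e t1))
    (g1 : Real.cos (hd r u t2) * Real.sin (un r s t1) <
      Real.cos (hd r s t1) * Real.sin (un r u t2) +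
      Real.cos (h0 r) * Real.sin (un r s t1 - un r u t2))
    (g2 : Real.cos (hd r v t3) * Real.sin (un r s t1) <
      Real.cos (hd r s t1) * Real.sin (un r v t3) +
      Real.cos (h0 r) * Real.sin (un r s t1 - un r v t3)) : False := by
  obtain ⟨o1, k1, x1, y1⟩ := frc1 hTRI r s t1 hr hs h1 h1' c1
  obtain ⟨o2, k2, x2, y2⟩ := frc1 hTRI r u t2 hr hu h2 h2' c2
  obtain ⟨o3, k3, x3, y3⟩ := frc1 hTRI r v t3 hr hv h3 h3' c3
  have k0 : 0 < Real.cos (h0 r) := by
    unfold h0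
    rw [Real.cos_arcsin]
    apply Real.sqrt_pos.2
    nlinarith
  have hre := congrArg Complex.re he
  have him := congrArg Complex.im he
  simp only [Complex.add_re, Complex.add_im, Complex.re_ofReal_mul, Complex.im_ofReal_mul,
    Complex.sub_re, Complex.sub_im, Complex.ofReal_re, Complex.ofReal_im, e_re, e_im,
    Real.cos_neg, Real.sin_neg] at hre him
  set X1 := omc r s t1 * (r - s * Real.cos t1) with hX1
  set Y1 := omc r s t1 * (s * Real.sin t1) with hY1
  set X2 := omc r u t2 * (r - u * Real.cos t2) with hX2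
  set Y2 := omc r u t2 * (u * Real.sin t2) with hY2
  set X3 := omc r v t3 * (r - v * Real.cos t3) with hX3
  set Y3 := omc r v t3 * (v * Real.sin t3) with hY3
  have e1 : X2 + X3 = 1 / Real.cos (h0 r) + X1 := hre
  have e2 : Y2 + Y3 = Y1 := by rw [hY1, hY2, hY3]; linarith
  clear_value X1 Y1 X2 Y2 X3 Y3
  rw [Real.sin_sub, ← x1, ← y1, ← x2, ← y2] at g1
  rw [Real.sin_sub, ← x1, ← y1, ← x3, ← y3] at g2
  have e1' : (X2 + X3) * Real.cos (h0 r) = 1 + X1 * Real.cos (h0 r) := by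
    rw [e1]
    field_simp
  generalize Real.cos (h0 r) = k at *
  generalize Real.cos (hd r s t1) = c at *
  generalize Real.cos (hd r u t2) = d at *
  generalize Real.cos (hd r v t3) = f at *
  have g1' : Y1 < Y2 + k * (Y1 * X2 - X1 * Y2) := by
    have : d * c * Y1 < d * c * (Y2 + k * (Y1 * X2 - X1 * Y2)) := by linarith
    exact lt_of_mul_lt_mul_left this (by positivity)
  have g2' : Y1 < Y3 + k * (Y1 * X3 - X1 * Y3) := by
    have : f * c * Y1 < f * c * (Y3 + k * (Y1 * X3 - X1 * Y3)) := by linarith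
    exact lt_of_mul_lt_mul_left this (by positivity)
  have h5 : k * (Y1 * X2 - X1 * Y2) + k * (Y1 * X3 - X1 * Y3) = Y1 := by
    have : k * (Y1 * X2 - X1 * Y2) + k * (Y1 * X3 - X1 * Y3) =
        Y1 * ((X2 + X3) * k) - X1 * k * (Y2 + Y3) := by ring
    rw [this, e1', e2]
    ring
  linarith

/-- vertex equations in a common frame -/
theorem frameC {ra rx ry rb Ra Rx Ry Rb b1 b2 b3 t1 t2 t3 t4
    w0a w0x w0y w0b way wyx wxb wab χa χx χy χb : ℝ} (hs : t1 + t2 + t3 + t4 = 2 * Real.pi)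
    (h : WW ra rx ry rb Ra Rx Ry Rb b1 b2 b3 t1 t2 t3 t4
      w0a w0x w0y w0b way wyx wxb wab χa χx χy χb) :
    ((way : ℂ) * (Ra - Ry * AX.e t1) + (wab : ℂ) * (Ra - Rb * AX.e (t1 + t2 + t3)) +
        (w0a : ℂ) * Ra =
      (1 - χa) * (1 - χy) * omc Ra Ry t1 * (Ra - Ry * AX.e t1) +
      (1 - χa) * (1 - χb) * omc Ra Rb t4 * (Ra - Rb * AX.e (t1 + t2 + t3)) +
      (χy + χb) * omc Ra Rx (t1 + t2) * (Ra - Rx * AX.e (t1 + t2))) ∧
    ((way : ℂ) * (Ry * AX.e t1 - Ra) + (wyx : ℂ) * (Ry * AX.e t1 - Rx * AX.e (t1 + t2)) +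
        (w0y : ℂ) * (Ry * AX.e t1) =
      (1 - χa) * (1 - χy) * omc Ra Ry t1 * (Ry * AX.e t1 - Ra) +
      (1 - χx) * (1 - χy) * omc Rx Ry t2 * (Ry * AX.e t1 - Rx * AX.e (t1 + t2)) +
      (χx + χa) * omc Ry Rb (t2 + t3) * (Ry * AX.e t1 - Rb * AX.e (t1 + t2 + t3))) ∧
    ((wyx : ℂ) * (Rx * AX.e (t1 + t2) - Ry * AX.e t1) +
        (wxb : ℂ) * (Rx * AX.e (t1 + t2) - Rb * AX.e (t1 + t2 + t3)) +
        (w0x : ℂ) * (Rx * AX.e (t1 + t2)) =
      (1 - χx) * (1 - χy) * omc Rx Ry t2 * (Rx * AX.e (t1 + t2) - Ry * AX.e t1) +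
      (1 - χx) * (1 - χb) * omc Rx Rb t3 * (Rx * AX.e (t1 + t2) - Rb * AX.e (t1 + t2 + t3)) +
      (χy + χb) * omc Ra Rx (t1 + t2) * (Rx * AX.e (t1 + t2) - Ra)) ∧
    ((wxb : ℂ) * (Rb * AX.e (t1 + t2 + t3) - Rx * AX.e (t1 + t2)) +
        (wab : ℂ) * (Rb * AX.e (t1 + t2 + t3) - Ra) +
        (w0b : ℂ) * (Rb * AX.e (t1 + t2 + t3)) =
      (1 - χx) * (1 - χb) * omc Rx Rb t3 * (Rb * AX.e (t1 + t2 + t3) - Rx * AX.e (t1 + t2)) +
      (1 - χa) * (1 - χb) * omc Ra Rb t4 * (Rb * AX.e (t1 + t2 + t3) - Ra) +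
      (χx + χa) * omc Ry Rb (t2 + t3) * (Rb * AX.e (t1 + t2 + t3) - Ry * AX.e t1)) := by
  have hadd : ∀ s t : ℝ, AX.e (s + t) = AX.e s * AX.e t := by
    intro s t
    unfold AX.e
    rw [← Complex.exp_add]
    congr 1
    push_cast
    ring
  have h2pi : AX.e (2 * Real.pi) = 1 := by
    unfold AX.e
    have := Complex.exp_two_pi_mul_I
    push_cast
    exact this
  have hz : AX.e 0 = 1 := by
    unfold AX.e
    simp
  have hconj : ∀ t : ℝ, (starRingEnd ℂ) (AX.e t) = AX.e (-t) := by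
    intro t
    unfold AX.e
    rw [← Complex.exp_conj]
    simp
  have e4 : AX.e (-t4) = AX.e (t1 + t2 + t3) := by
    have : t1 + t2 + t3 = 2 * Real.pi + (-t4) := by linarith
    rw [this, hadd, h2pi, one_mul]
  refine ⟨?_, ?_, ?_, ?_⟩
  · have hh := h.PA
    rw [e4] at hh
    linear_combination hh
  · have hh := h.PY
    have f0 : AX.e t1 * AX.e (-t1) = 1 := by rw [← hadd, add_neg_cancel, hz]
    have f1 : AX.e t1 * AX.e t2 = AX.e (t1 + t2) := (hadd _ _).symm
    have f2 : AX.e t1 * AX.e (t2 + t3) = AX.e (t1 + t2 + t3) := by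
      rw [← hadd]; congr 1; ring
    rw [omc_comm1 Ry Rx t2, omc_comm1 Ry Ra t1] at hh
    linear_combination AX.e t1 * hh + ((way : ℂ) * Ra - (1 - χa) * (1 - χy) * omc Ra Ry t1 * Ra) * f0
      + ((wyx : ℂ) * Rx - (1 - χx) * (1 - χy) * omc Rx Ry t2 * Rx) * f1
      + (-((χx + χa) * omc Ry Rb (t2 + t3) * Rb) : ℂ) * f2
  · have hh := congrArg (starRingEnd ℂ) h.PX
    simp only [map_add, map_mul, map_sub, map_one, Complex.conj_ofReal, hconj, neg_neg] at hh
    have f0 : AX.e (t1 + t2) * AX.e (-(t1 + t2)) = 1 := by rw [← hadd, add_neg_cancel, hz]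
    have f1 : AX.e (t1 + t2) * AX.e (-t2) = AX.e t1 := by rw [← hadd]; congr 1; ring
    have f2 : AX.e (t1 + t2) * AX.e t3 = AX.e (t1 + t2 + t3) := (hadd _ _).symm
    rw [omc_comm1 Rx Ra (t1 + t2)] at hh
    linear_combination AX.e (t1 + t2) * hh + (-((χy + χb) * omc Ra Rx (t1 + t2) * Ra) : ℂ) * f0
      + ((wyx : ℂ) * Ry - (1 - χx) * (1 - χy) * omc Rx Ry t2 * Ry) * f1
      + ((wxb : ℂ) * Rb - (1 - χx) * (1 - χb) * omc Rx Rb t3 * Rb) * f2
  · have hh := congrArg (starRingEnd ℂ) h.PB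
    simp only [map_add, map_mul, map_sub, map_one, Complex.conj_ofReal, hconj, neg_neg] at hh
    have f0 : AX.e (t1 + t2 + t3) * AX.e t4 = 1 := by rw [← hadd, hs, h2pi]
    have f1 : AX.e (t1 + t2 + t3) * AX.e (-t3) = AX.e (t1 + t2) := by rw [← hadd]; congr 1; ring
    have f2 : AX.e (t1 + t2 + t3) * AX.e (-(t2 + t3)) = AX.e t1 := by rw [← hadd]; congr 1; ring
    rw [omc_comm1 Rb Rx t3, omc_comm1 Rb Ra t4, omc_comm1 Rb Ry (t2 + t3)] at hh
    linear_combination AX.e (t1 + t2 + t3) * hh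
      + ((wab : ℂ) * Ra - (1 - χa) * (1 - χb) * omc Ra Rb t4 * Ra) * f0
      + ((wxb : ℂ) * Rx - (1 - χx) * (1 - χb) * omc Rx Rb t3 * Rx) * f1
      + (-((χx + χa) * omc Ry Rb (t2 + t3) * Ry) : ℂ) * f2

theorem crs_pol (r s φ ψ : ℝ) :
    crs ((r : ℂ) * AX.e φ) ((s : ℂ) * AX.e ψ) = r * s * Real.sin (ψ - φ) := by
  rw [crs_eq, Complex.re_ofReal_mul, Complex.im_ofReal_mul, Complex.re_ofReal_mul,
    Complex.im_ofReal_mul, e_re, e_re, e_im, e_im, Real.sin_sub]
  ring

theorem crs_cyc (A B C : ℂ) : crs (B - A) (C - A) = crs (C - B) (A - B) := by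
  rw [crs_eq, crs_eq]
  simp only [Complex.sub_re, Complex.sub_im]
  ring

/-- area at a convex vertex -/
theorem area_pos (hTRI : ST_TRI) (R S T α β φ : ℝ) (hR : 0 < R) (hS : 0 < S) (hT : 0 < T)
    (hα : 0 < α) (hα' : α < Real.pi) (hβ : 0 < β) (hβ' : β < Real.pi) (c1 : ch R S α < 2)
    (c2 : ch R T β < 2) (h : un R S α + un R T β < Real.pi) :
    0 < crs ((S : ℂ) * AX.e (φ + α) - (R : ℂ) * AX.e φ)
      ((T : ℂ) * AX.e (φ - β) - (R : ℂ) * AX.e φ) := by
  obtain ⟨p1, _, _, _, u1, _, x1, y1, _⟩ := hTRI R S α hR hS hα hα' c1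
  obtain ⟨p2, _, _, _, u2, _, x2, y2, _⟩ := hTRI R T β hR hT hβ hβ' c2
  have hs : 0 < Real.sin (un R S α + un R T β) :=
    Real.sin_pos_of_pos_of_lt_pi (by linarith) h
  have key : crs ((S : ℂ) * AX.e (φ + α) - (R : ℂ) * AX.e φ)
      ((T : ℂ) * AX.e (φ - β) - (R : ℂ) * AX.e φ) =
      (R - S * Real.cos α) * (T * Real.sin β) + (S * Real.sin α) * (R - T * Real.cos β) := by
    rw [crs_eq]
    simp only [Complex.sub_re, Complex.sub_im, Complex.re_ofReal_mul, Complex.im_ofReal_mul, e_re,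
      e_im, Real.cos_add, Real.sin_add, Real.cos_sub, Real.sin_sub]
    have hb := Real.sin_sq_add_cos_sq φ
    generalize Real.sin φ = s1 at *
    generalize Real.cos φ = c1 at *
    generalize Real.sin α = s2 at *
    generalize Real.cos α = c2 at *
    generalize Real.sin β = s3 at *
    generalize Real.cos β = c3 at *
    linear_combination (-(S * T * c2 * s3) - S * T * s2 * c3 + R * T * s3 + R * S * s2) * hb
  rw [key, x1, y1, x2, y2]
  rw [Real.sin_add] at hs
  have : 0 < ch R S α * ch R T β *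
      (Real.sin (un R S α) * Real.cos (un R T β) + Real.cos (un R S α) * Real.sin (un R T β)) := by
    positivity
  linarith

theorem SPKR (hTRI : ST_TRI) : ST_SPKR := by
  intro ra rx ry rb Ra Rx Ry Rb b1 b2 b3 t1 t2 t3 t4
    w0a w0x w0y w0b way wyx wxb wab χa χx χy χb hD hW
  have hQ := hD.q
  have hP := hD.p
  obtain ⟨EA, EY, EX, EB⟩ := frameC hP.ts hW
  have hts := hP.ts
  have hpi := Real.pi_pos
  have hadd : ∀ s t : ℝ, AX.e (s + t) = AX.e s * AX.e t := by
    intro s t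
    unfold AX.e
    rw [← Complex.exp_add]
    congr 1
    push_cast
    ring
  have h2pi : AX.e (2 * Real.pi) = 1 := by
    unfold AX.e
    have := Complex.exp_two_pi_mul_I
    push_cast
    exact this
  have hz : AX.e 0 = 1 := by
    unfold AX.e
    simp
  have hRa : (Ra : ℂ) = (Ra : ℂ) * AX.e 0 := by rw [hz, mul_one]
  have hRa2 : (Ra : ℂ) = (Ra : ℂ) * AX.e (2 * Real.pi) := by rw [h2pi, mul_one]
  -- positions
  obtain ⟨Pa, hPa⟩ : ∃ z : ℂ, z = (Ra : ℂ) := ⟨_, rfl⟩
  obtain ⟨Py, hPy⟩ : ∃ z : ℂ, z = (Ry : ℂ) * AX.e t1 := ⟨_, rfl⟩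
  obtain ⟨Px, hPx⟩ : ∃ z : ℂ, z = (Rx : ℂ) * AX.e (t1 + t2) := ⟨_, rfl⟩
  obtain ⟨Pb, hPb⟩ : ∃ z : ℂ, z = (Rb : ℂ) * AX.e (t1 + t2 + t3) := ⟨_, rfl⟩
  have cay : 0 < crs Pa Py := by
    rw [hPa, hRa, hPy, crs_pol, sub_zero]
    have := Real.sin_pos_of_pos_of_lt_pi hP.t10 hP.t1p
    have h1 := hP.Ra0; have h2 := hP.Ry0
    positivity
  have cyx : 0 < crs Py Px := by
    rw [hPy, hPx, crs_pol, show t1 + t2 - t1 = t2 by ring]
    have := Real.sin_pos_of_pos_of_lt_pi hP.t20 hP.t2p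
    have h1 := hP.Rx0; have h2 := hP.Ry0
    positivity
  have cxb : 0 < crs Px Pb := by
    rw [hPx, hPb, crs_pol, show t1 + t2 + t3 - (t1 + t2) = t3 by ring]
    have := Real.sin_pos_of_pos_of_lt_pi hP.t30 hP.t3p
    have h1 := hP.Rx0; have h2 := hP.Rb0
    positivity
  have cba : 0 < crs Pb Pa := by
    rw [hPa, hRa2, hPb, crs_pol, show 2 * Real.pi - (t1 + t2 + t3) = t4 by linarith]
    have := Real.sin_pos_of_pos_of_lt_pi hP.t40 hP.t4p
    have h1 := hP.Ra0; have h2 := hP.Rb0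
    positivity
  have Aa : 0 < crs (Py - Pa) (Pb - Pa) := by
    have := area_pos hTRI Ra Ry Rb t1 t4 0 hP.Ra0 hP.Ry0 hP.Rb0 hP.t10 hP.t1p hP.t40 hP.t4p
      hP.pay hP.pab hP.fa
    have h5 : AX.e (0 - t4) = AX.e (t1 + t2 + t3) := by
      rw [show t1 + t2 + t3 = 2 * Real.pi + (0 - t4) by linarith, hadd, h2pi, one_mul]
    rw [h5, ← hRa, zero_add, ← hPa, ← hPy, ← hPb] at this
    exact this
  have Ay : 0 < crs (Px - Py) (Pa - Py) := by
    have := area_pos hTRI Ry Rx Ra t2 t1 t1 hP.Ry0 hP.Rx0 hP.Ra0 hP.t20 hP.t2p hP.t10 hP.t1p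
      hP.pyx (by rw [ch_comm1]; exact hP.pay) (by have := hP.fy; linarith)
    rw [sub_self, ← hRa, ← hPa, ← hPy, ← hPx] at this
    exact this
  have Ax : 0 < crs (Pb - Px) (Py - Px) := by
    have := area_pos hTRI Rx Rb Ry t3 t2 (t1 + t2) hP.Rx0 hP.Rb0 hP.Ry0 hP.t30 hP.t3p hP.t20
      hP.t2p hP.pxb (by rw [ch_comm1]; exact hP.pyx) (by have := hP.fx; linarith)
    rw [show t1 + t2 - t2 = t1 by ring, ← hPy, ← hPx, ← hPb] at this
    exact this
  have Ab : 0 < crs (Pa - Pb) (Px - Pb) := by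
    have := area_pos hTRI Rb Ra Rx t4 t3 (t1 + t2 + t3) hP.Rb0 hP.Ra0 hP.Rx0 hP.t40 hP.t4p
      hP.t30 hP.t3p (by rw [ch_comm1]; exact hP.pab) (by rw [ch_comm1]; exact hP.pxb)
      (by have := hP.fb; linarith)
    rw [show t1 + t2 + t3 - t3 = t1 + t2 by ring, hts, ← hRa2, ← hPa, ← hPx, ← hPb] at this
    exact this
  rw [← hPa, ← hPy, ← hPx, ← hPb] at EA EY EX EB
  have cyb : crs Pb Py = Rb * Ry * Real.sin (t1 + t4) := by
    rw [hPb, hPy, crs_pol]
    congr 1
    rw [show t1 - (t1 + t2 + t3) = (t1 + t4) - 2 * Real.pi by linarith, Real.sin_sub_two_pi]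
  have cax : crs Px Pa = Rx * Ra * Real.sin (t3 + t4) := by
    rw [hPx, hPa, hRa2, crs_pol]
    congr 2
    linarith
  have hanti : ∀ u v : ℂ, crs u v = - crs v u := by
    intro u v
    rw [crs_eq, crs_eq]
    ring
  -- not all spokes are unstressed
  have hall : ¬ (w0a = 0 ∧ w0x = 0 ∧ w0y = 0 ∧ w0b = 0) := by
    rintro ⟨z1, z2, z3, z4⟩
    have h := congrArg Complex.im hW.Q0
    rw [z1, z2, z3, z4] at h
    simp only [Complex.ofReal_zero, zero_mul, add_zero, Complex.zero_im, Complex.add_im,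
      Complex.ofReal_im, Complex.im_ofReal_mul, e_im, zero_add] at h
    have h1 : 0 < Real.sin (b1 + b2 + b3) := Real.sin_pos_of_pos_of_lt_pi
      (by have := hQ.b10; have := hQ.b20; have := hQ.b30; linarith) hQ.bs
    have h2 : 0 < Real.cos (h0 rb) := by
      unfold h0
      rw [Real.cos_arcsin]
      apply Real.sqrt_pos.2
      have := hQ.rb0; have := hQ.rb2
      nlinarith
    have : 0 < 1 / Real.cos (h0 rb) * Real.sin (b1 + b2 + b3) := by positivity
    linarith
  have q1 := hQ.b10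
  have q2 := hQ.b20
  have q3 := hQ.b30
  have q4 := hQ.bs
  -- Lemma G at x
  have gX : w0x = 0 → wyx = (1 - χx) * omc Rx Ry t2 → wxb = (1 - χx) * omc Rx Rb t3 → False := by
    intro hx h1 h2
    have o1 : wyx = (1 - χx) * omc rx ry b2 := by
      by_cases hw : 1 - χx = 0
      · rw [h1, hw]; ring
      · have hp := (frc1 hTRI Rx Ry t2 hP.Rx0 hP.Ry0 hP.t20 hP.t2p
          (by rw [ch_comm1]; exact hP.pyx)).1
        have h3 := hW.cyx (by rw [h1]; exact mul_ne_zero hw hp.ne')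
        rw [h1, omc_comm1 Rx Ry t2, ← omc_of_ch h3, omc_comm1 ry rx b2]
    have o2 : wxb = (1 - χx) * omc rx rb (b2 + b3) := by
      by_cases hw : 1 - χx = 0
      · rw [h2, hw]; ring
      · have hp := (frc1 hTRI Rx Rb t3 hP.Rx0 hP.Rb0 hP.t30 hP.t3p hP.pxb).1
        have h3 := hW.cxb (by rw [h2]; exact mul_ne_zero hw hp.ne')
        rw [h2, ← omc_of_ch h3]
    refine lgV hTRI rx ry rb ra b2 (b2 + b3) b1 (1 - χx) hQ.rx0 hQ.ry0 hQ.rb0 hQ.ra0 q2
      (by linarith) (by linarith) (by linarith) q1 (by linarith) hQ.cxy2 hQ.cxb2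
      (by rw [ch_comm1]; exact hQ.cax2) ?_ hQ.ux1
      (by have := hQ.x4; unfold UU at this; linarith)
      (by have := hQ.qx; unfold UU at this; linarith)
    have h5 := hW.QX
    rw [hx, o1, o2, Complex.ofReal_zero] at h5
    linear_combination h5
  -- Lemma G at y
  have gY : w0y = 0 → wyx = (1 - χy) * omc Rx Ry t2 → way = (1 - χy) * omc Ra Ry t1 → False := by
    intro hx h1 h2
    have o1 : wyx = (1 - χy) * omc ry rx b2 := by
      by_cases hw : 1 - χy = 0
      · rw [h1, hw]; ring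
      · have hp := (frc1 hTRI Rx Ry t2 hP.Rx0 hP.Ry0 hP.t20 hP.t2p
          (by rw [ch_comm1]; exact hP.pyx)).1
        have h3 := hW.cyx (by rw [h1]; exact mul_ne_zero hw hp.ne')
        rw [h1, omc_comm1 Rx Ry t2, ← omc_of_ch h3]
    have o2 : way = (1 - χy) * omc ry ra (b1 + b2) := by
      by_cases hw : 1 - χy = 0
      · rw [h2, hw]; ring
      · have hp := (frc1 hTRI Ra Ry t1 hP.Ra0 hP.Ry0 hP.t10 hP.t1p hP.pay).1
        have h3 := hW.cay (by rw [h2]; exact mul_ne_zero hw hp.ne')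
        rw [h2, ← omc_of_ch h3, omc_comm1 ry ra]
    refine lgV hTRI ry rx ra rb b2 (b1 + b2) b3 (1 - χy) hQ.ry0 hQ.rx0 hQ.ra0 hQ.rb0 q2
      (by linarith) (by linarith) (by linarith) q3 (by linarith) (by rw [ch_comm1]; exact hQ.cxy2)
      (by rw [ch_comm1]; exact hQ.cay2) hQ.cyb2 ?_ hQ.uy1
      (by have := hQ.y4; unfold UU at this; linarith)
      (by have := hQ.qy; unfold UU at this; linarith)
    have h5 := hW.QY
    rw [hx, o1, o2, Complex.ofReal_zero] at h5
    linear_combination h5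
  -- the end vertices
  have eA : w0a = 0 → way = (1 - χa) * omc Ra Ry t1 → wab = (1 - χa) * omc Ra Rb t4 →
      0 < χa ∧ χa < 1 := by
    intro hx h1 h2
    have pay := (frc1 hTRI Ra Ry t1 hP.Ra0 hP.Ry0 hP.t10 hP.t1p hP.pay).1
    have pab := (frc1 hTRI Ra Rb t4 hP.Ra0 hP.Rb0 hP.t40 hP.t4p hP.pab).1
    constructor
    · refine lt_of_le_of_ne hW.χa0.1 ?_
      intro h3
      rw [← h3, sub_zero, one_mul] at h1 h2
      have h4 := hW.cay (by rw [h1]; exact pay.ne')
      have h5 := hW.cab (by rw [h2]; exact pab.ne')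
      rw [← omc_of_ch h4] at h1
      rw [← omc_of_ch h5] at h2
      refine v3End hTRI ra rx rb ry b1 (b1 + b2 + b3) (b1 + b2) hQ.ra0 hQ.ra2 hQ.rx0 hQ.rb0 hQ.ry0
        q1 (by linarith) (by linarith) q4 (by linarith) (by linarith) hQ.cax2 hQ.cab2 hQ.cay2 ?_
        hQ.va1 hQ.va2
      have h6 := hW.QA
      rw [hx, h1, h2, Complex.ofReal_zero] at h6
      linear_combination h6
    · refine lt_of_le_of_ne hW.χa0.2 ?_
      intro h3
      rw [h3, sub_self, zero_mul] at h1 h2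
      have h := congrArg Complex.im hW.QA
      rw [hx, h1, h2] at h
      simp only [Complex.ofReal_zero, zero_mul, add_zero, Complex.zero_im, Complex.add_im,
        Complex.ofReal_im, Complex.im_ofReal_mul, e_im, zero_add, Complex.sub_im, zero_sub,
        mul_neg] at h
      have h4 := (frc1 hTRI ra rx b1 hQ.ra0 hQ.rx0 q1 (by linarith) hQ.cax2).1
      have h5 : 0 < Real.sin b1 := Real.sin_pos_of_pos_of_lt_pi q1 (by linarith)
      have h6 := hQ.rx0
      have : 0 < omc ra rx b1 * (rx * Real.sin b1) := by positivity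
      linarith
  have eB : w0b = 0 → wxb = (1 - χb) * omc Rx Rb t3 → wab = (1 - χb) * omc Ra Rb t4 →
      0 < χb ∧ χb < 1 := by
    intro hx h1 h2
    have pxb := (frc1 hTRI Rx Rb t3 hP.Rx0 hP.Rb0 hP.t30 hP.t3p hP.pxb).1
    have pab := (frc1 hTRI Ra Rb t4 hP.Ra0 hP.Rb0 hP.t40 hP.t4p hP.pab).1
    constructor
    · refine lt_of_le_of_ne hW.χb0.1 ?_
      intro h3
      rw [← h3, sub_zero, one_mul] at h1 h2
      have h4 := hW.cxb (by rw [h1]; exact pxb.ne')
      have h5 := hW.cab (by rw [h2]; exact pab.ne')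
      rw [← omc_of_ch h4] at h1
      rw [← omc_of_ch h5] at h2
      refine v3End hTRI rb ry ra rx b3 (b1 + b2 + b3) (b2 + b3) hQ.rb0 hQ.rb2 hQ.ry0 hQ.ra0 hQ.rx0
        q3 (by linarith) (by linarith) q4 (by linarith) (by linarith)
        (by rw [ch_comm1]; exact hQ.cyb2) (by rw [ch_comm1]; exact hQ.cab2)
        (by rw [ch_comm1]; exact hQ.cxb2) ?_ hQ.vb1 hQ.vb2
      have h6 := hW.QB
      rw [hx, h1, h2, Complex.ofReal_zero] at h6
      rw [omc_comm1 rb ra, omc_comm1 rb rx]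
      linear_combination h6
    · refine lt_of_le_of_ne hW.χb0.2 ?_
      intro h3
      rw [h3, sub_self, zero_mul] at h1 h2
      have h := congrArg Complex.im hW.QB
      rw [hx, h1, h2] at h
      simp only [Complex.ofReal_zero, zero_mul, add_zero, Complex.zero_im, Complex.add_im,
        Complex.ofReal_im, Complex.im_ofReal_mul, e_im, zero_add, Complex.sub_im, zero_sub,
        mul_neg] at h
      have h4 := (frc1 hTRI rb ry b3 hQ.rb0 hQ.ry0 q3 (by linarith)
        (by rw [ch_comm1]; exact hQ.cyb2)).1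
      have h5 : 0 < Real.sin b3 := Real.sin_pos_of_pos_of_lt_pi q3 (by linarith)
      have h6 := hQ.ry0
      have : 0 < omc rb ry b3 * (ry * Real.sin b3) := by positivity
      linarith
  have nn : ∀ r s t : ℝ, 0 ≤ omc r s t := omc_nonneg1
  -- which kinks
  have hcase : (χy = 0 ∧ χb = 0) ∨ (χa = 0 ∧ χx = 0) := by
    by_cases ha : χa = 0
    · by_cases hx : χx = 0
      · exact Or.inr ⟨ha, hx⟩
      · left
        have h1 := hW.χxs hx
        constructor
        · by_contra h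
          have h2 := hW.χys h
          rcases hP.nyx with h3 | h3 <;> linarith
        · by_contra h
          have h2 := hW.χbs h
          rcases hP.nxb with h3 | h3 <;> linarith
    · left
      have h1 := hW.χas ha
      constructor
      · by_contra h
        have h2 := hW.χys h
        rcases hP.nay with h3 | h3 <;> linarith
      · by_contra h
        have h2 := hW.χbs h
        rcases hP.nab with h3 | h3 <;> linarith
  rcases hcase with ⟨hy, hb⟩ | ⟨ha, hx⟩
  · -- kinks at most at a, x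
    simp only [hy, hb, Complex.ofReal_zero] at EA EY EX EB
    have hh : 0 ≤ (χx + χa) * omc Ry Rb (t2 + t3) :=
      mul_nonneg (add_nonneg hW.χx0.1 hW.χa0.1) (nn _ _ _)
    rcases le_total 0 (crs Pb Py) with hs | hs
    · rcases spk_core2 Pb Pa Py Px wab way wyx wxb w0b w0a w0y w0x ((1 - χa) * omc Ra Rb t4)
        ((1 - χa) * omc Ra Ry t1) ((1 - χx) * omc Rx Ry t2) ((1 - χx) * omc Rx Rb t3)
        ((χx + χa) * omc Ry Rb (t2 + t3)) cba cay cyx cxb hs
        (by rw [crs_cyc]; exact Aa) (by rw [crs_cyc]; exact Ay) (by rw [crs_cyc]; exact Ax)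
        (by rw [crs_cyc]; exact Ab) hh hW.n0a
        (by push_cast at EB ⊢; linear_combination EB) (by push_cast at EA ⊢; linear_combination EA)
        (by push_cast at EY ⊢; linear_combination EY) (by push_cast at EX ⊢; linear_combination EX)
        with h | h | h
      · exact Or.inl ⟨h.2.1, h.2.2.2, h.2.2.1, h.1⟩
      · exact absurd ⟨h.2.1, h.2.2.2, h.2.2.1, h.1⟩ hall
      · obtain ⟨v1, v2, v3, v4, v5, v6⟩ := h
        rcases v6 with ⟨v6, v7⟩ | ⟨v6, v7, v8⟩
        · right; left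
          obtain ⟨c0, c1⟩ := eA v1 v3 v2
          refine ⟨v1, v7, v5, v4, c0, c1, hy, hb, v3, v2, hW.χas c0.ne', ?_⟩
          rw [cyb] at v6
          by_contra hge
          rw [not_lt] at hge
          have h1 : Real.sin (t1 + t4) ≤ 0 := by
            have := Real.sin_nonneg_of_nonneg_of_le_pi (x := t1 + t4 - Real.pi) (by linarith)
              (by have := hP.t1p; have := hP.t4p; linarith)
            rw [Real.sin_sub_pi] at this
            linarith
          have := mul_nonpos_of_nonneg_of_nonpos (mul_pos hP.Rb0 hP.Ry0).le h1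
          linarith
        · exact (gX v6 v7 v8).elim
    · have hs' : 0 ≤ crs Py Pb := by rw [hanti]; linarith
      rcases spk_core2 Py Px Pb Pa wyx wxb wab way w0y w0x w0b w0a ((1 - χx) * omc Rx Ry t2)
        ((1 - χx) * omc Rx Rb t3) ((1 - χa) * omc Ra Rb t4) ((1 - χa) * omc Ra Ry t1)
        ((χx + χa) * omc Ry Rb (t2 + t3)) cyx cxb cba cay hs'
        (by rw [crs_cyc]; exact Ax) (by rw [crs_cyc]; exact Ab) (by rw [crs_cyc]; exact Aa)
        (by rw [crs_cyc]; exact Ay) hh hW.n0x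
        (by push_cast at EY ⊢; linear_combination EY) (by push_cast at EX ⊢; linear_combination EX)
        (by push_cast at EB ⊢; linear_combination EB) (by push_cast at EA ⊢; linear_combination EA)
        with h | h | h
      · exact Or.inl ⟨h.2.2.2, h.2.1, h.1, h.2.2.1⟩
      · exact absurd ⟨h.2.2.2, h.2.1, h.1, h.2.2.1⟩ hall
      · exact (gX h.1 h.2.1 h.2.2.1).elim
  · -- kinks at most at y, b
    simp only [ha, hx, Complex.ofReal_zero] at EA EY EX EB
    have hh : 0 ≤ (χy + χb) * omc Ra Rx (t1 + t2) :=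
      mul_nonneg (add_nonneg hW.χy0.1 hW.χb0.1) (nn _ _ _)
    rcases le_total 0 (crs Px Pa) with hs | hs
    · rcases spk_core2 Px Pb Pa Py wxb wab way wyx w0x w0b w0a w0y ((1 - χb) * omc Rx Rb t3)
        ((1 - χb) * omc Ra Rb t4) ((1 - χy) * omc Ra Ry t1) ((1 - χy) * omc Rx Ry t2)
        ((χy + χb) * omc Ra Rx (t1 + t2)) cxb cba cay cyx hs
        (by rw [crs_cyc]; exact Ab) (by rw [crs_cyc]; exact Aa) (by rw [crs_cyc]; exact Ay)
        (by rw [crs_cyc]; exact Ax) hh hW.n0b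
        (by push_cast at EX ⊢; linear_combination EX) (by push_cast at EB ⊢; linear_combination EB)
        (by push_cast at EA ⊢; linear_combination EA) (by push_cast at EY ⊢; linear_combination EY)
        with h | h | h
      · exact Or.inl ⟨h.2.2.1, h.1, h.2.2.2, h.2.1⟩
      · exact absurd ⟨h.2.2.1, h.1, h.2.2.2, h.2.1⟩ hall
      · obtain ⟨v1, v2, v3, v4, v5, v6⟩ := h
        rcases v6 with ⟨v6, v7⟩ | ⟨v6, v7, v8⟩
        · right; right
          obtain ⟨c0, c1⟩ := eB v1 v2 v3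
          refine ⟨v1, v7, v4, v5, c0, c1, hx, ha, ?_, ?_, hW.χbs c0.ne', ?_⟩
          · rw [v2, omc_comm1 Rx Rb]
          · rw [v3, omc_comm1 Ra Rb]
          · rw [cax] at v6
            by_contra hge
            rw [not_lt] at hge
            have h1 : Real.sin (t3 + t4) ≤ 0 := by
              have := Real.sin_nonneg_of_nonneg_of_le_pi (x := t3 + t4 - Real.pi) (by linarith)
                (by have := hP.t3p; have := hP.t4p; linarith)
              rw [Real.sin_sub_pi] at this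
              linarith
            have := mul_nonpos_of_nonneg_of_nonpos (mul_pos hP.Rx0 hP.Ra0).le h1
            linarith
        · exact (gY v6 v8 v7).elim
    · have hs' : 0 ≤ crs Pa Px := by rw [hanti]; linarith
      rcases spk_core2 Pa Py Px Pb way wyx wxb wab w0a w0y w0x w0b ((1 - χy) * omc Ra Ry t1)
        ((1 - χy) * omc Rx Ry t2) ((1 - χb) * omc Rx Rb t3) ((1 - χb) * omc Ra Rb t4)
        ((χy + χb) * omc Ra Rx (t1 + t2)) cay cyx cxb cba hs'
        (by rw [crs_cyc]; exact Ay) (by rw [crs_cyc]; exact Ax) (by rw [crs_cyc]; exact Ab)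
        (by rw [crs_cyc]; exact Aa) hh hW.n0y
        (by push_cast at EA ⊢; linear_combination EA) (by push_cast at EY ⊢; linear_combination EY)
        (by push_cast at EX ⊢; linear_combination EX) (by push_cast at EB ⊢; linear_combination EB)
        with h | h | h
      · exact Or.inl ⟨h.1, h.2.2.1, h.2.1, h.2.2.2⟩
      · exact absurd ⟨h.1, h.2.2.1, h.2.1, h.2.2.2⟩ hall
      · exact (gY h.1 h.2.2.1 h.2.1).elim

end E5
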