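import Pool.Agent.Helper1.E5.SPKCore

/-!
MP_efd95c_co, wheels: the forces of `p` at the four rim points when there are no adjacent kinks.
-/

set_option autoImplicit false
set_option linter.unusedSimpArgs false

open Complex

noncomputable section

namespace E5

theorem om_comm (x y : ℂ) : om x y = om y x := by
  unfold om
  rw [dist_comm]

theorem om_nonneg1 (x y : ℂ) : 0 ≤ om x y := by
  unfold om
  positivity

/-- indicator of membership -/
def ind {n : ℕ} (S : Finset (Fin n)) (i : Fin n) : ℝ := if i ∈ S then 1 else 0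

theorem cg_lst4 {n : ℕ} (c : Fin n → ℂ) (g : ℤ → Fin n) (S : Finset (Fin n))
    (h01 : g 0 ≠ g 1) (h02 : g 0 ≠ g 2) (h03 : g 0 ≠ g 3) (h12 : g 1 ≠ g 2) (h13 : g 1 ≠ g 3)
    (h23 : g 2 ≠ g 3) (m0 : g 0 ∈ S) (m2 : g 2 ∈ S) :
    cgrad c (lst g 4 S) (g 0) =
      ((ind S (g 1) * om (c (g 0)) (c (g 1)) : ℝ) : ℂ) * (c (g 0) - c (g 1)) +
      ((ind S (g 3) * om (c (g 0)) (c (g 3)) : ℝ) : ℂ) * (c (g 0) - c (g 3)) +
      ((((1 - ind S (g 1)) + (1 - ind S (g 3))) * om (c (g 0)) (c (g 2)) : ℝ) : ℂ) *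
        (c (g 0) - c (g 2)) ∧
    cgrad c (lst g 4 S) (g 1) =
      ((ind S (g 1) * om (c (g 0)) (c (g 1)) : ℝ) : ℂ) * (c (g 1) - c (g 0)) +
      ((ind S (g 1) * om (c (g 1)) (c (g 2)) : ℝ) : ℂ) * (c (g 1) - c (g 2)) ∧
    cgrad c (lst g 4 S) (g 2) =
      ((ind S (g 1) * om (c (g 1)) (c (g 2)) : ℝ) : ℂ) * (c (g 2) - c (g 1)) +
      ((ind S (g 3) * om (c (g 2)) (c (g 3)) : ℝ) : ℂ) * (c (g 2) - c (g 3)) +
      ((((1 - ind S (g 1)) + (1 - ind S (g 3))) * om (c (g 0)) (c (g 2)) : ℝ) : ℂ) *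
        (c (g 2) - c (g 0)) ∧
    cgrad c (lst g 4 S) (g 3) =
      ((ind S (g 3) * om (c (g 2)) (c (g 3)) : ℝ) : ℂ) * (c (g 3) - c (g 2)) +
      ((ind S (g 3) * om (c (g 0)) (c (g 3)) : ℝ) : ℂ) * (c (g 3) - c (g 0)) := by
  have e0 : g ((0 : ℕ) : ℤ) = g 0 := rfl
  have e1 : g ((1 : ℕ) : ℤ) = g 1 := rfl
  have e2 : g ((2 : ℕ) : ℤ) = g 2 := rfl
  have e3 : g ((3 : ℕ) : ℤ) = g 3 := rfl
  have hl : lst g 4 S = ([g 0, g 1, g 2, g 3] : List (Fin n)).filter (fun i => decide (i ∈ S)) := by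
    unfold lst
    simp only [List.range_succ, List.range_zero, List.nil_append, List.map_cons,
      List.map_nil, List.cons_append, e0, e1, e2, e3]
  have r01 := om_comm (c (g 1)) (c (g 0))
  have r02 := om_comm (c (g 2)) (c (g 0))
  have r03 := om_comm (c (g 3)) (c (g 0))
  have r12 := om_comm (c (g 2)) (c (g 1))
  have r23 := om_comm (c (g 3)) (c (g 2))
  by_cases m1 : g 1 ∈ S <;> by_cases m3 : g 3 ∈ S
  · have hl' : lst g 4 S = [g 0, g 1, g 2, g 3] := by rw [hl]; simp [m0, m1, m2, m3]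
    rw [hl']
    unfold cgrad ind
    simp only [m1, m3, if_true]
    refine ⟨?_, ?_, ?_, ?_⟩ <;>
    · simp [h01, h02, h03, h12, h13, h23, h01.symm, h02.symm, h03.symm, h12.symm, h13.symm,
        h23.symm, List.rotate, r01, r02, r03, r12, r23]
      try ring
  · have hl' : lst g 4 S = [g 0, g 1, g 2] := by rw [hl]; simp [m0, m1, m2, m3]
    rw [hl']
    unfold cgrad ind
    simp only [m1, m3, if_true, if_false]
    refine ⟨?_, ?_, ?_, ?_⟩ <;>
    · simp [h01, h02, h03, h12, h13, h23, h01.symm, h02.symm, h03.symm, h12.symm, h13.symm,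
        h23.symm, List.rotate, r01, r02, r03, r12, r23]
      try ring
  · have hl' : lst g 4 S = [g 0, g 2, g 3] := by rw [hl]; simp [m0, m1, m2, m3]
    rw [hl']
    unfold cgrad ind
    simp only [m1, m3, if_true, if_false]
    refine ⟨?_, ?_, ?_, ?_⟩ <;>
    · simp [h01, h02, h03, h12, h13, h23, h01.symm, h02.symm, h03.symm, h12.symm, h13.symm,
        h23.symm, List.rotate, r01, r02, r03, r12, r23]
      try ring
  · have hl' : lst g 4 S = [g 0, g 2] := by rw [hl]; simp [m0, m1, m2, m3]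
    rw [hl']
    unfold cgrad ind
    simp only [m1, m3, if_false]
    refine ⟨?_, ?_, ?_, ?_⟩ <;>
    · simp [h01, h02, h03, h12, h13, h23, h01.symm, h02.symm, h03.symm, h12.symm, h13.symm,
        h23.symm, List.rotate, r01, r02, r03, r12, r23]
      try ring

/-- the same with possible kinks at the positions `0` and `2` -/
theorem cg_lst4' {n : ℕ} (c : Fin n → ℂ) (g : ℤ → Fin n) (S : Finset (Fin n))
    (h01 : g 0 ≠ g 1) (h02 : g 0 ≠ g 2) (h03 : g 0 ≠ g 3) (h12 : g 1 ≠ g 2) (h13 : g 1 ≠ g 3)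
    (h23 : g 2 ≠ g 3) (m1 : g 1 ∈ S) (m3 : g 3 ∈ S) :
    cgrad c (lst g 4 S) (g 1) =
      ((ind S (g 2) * om (c (g 1)) (c (g 2)) : ℝ) : ℂ) * (c (g 1) - c (g 2)) +
      ((ind S (g 0) * om (c (g 0)) (c (g 1)) : ℝ) : ℂ) * (c (g 1) - c (g 0)) +
      ((((1 - ind S (g 2)) + (1 - ind S (g 0))) * om (c (g 1)) (c (g 3)) : ℝ) : ℂ) *
        (c (g 1) - c (g 3)) ∧
    cgrad c (lst g 4 S) (g 2) =
      ((ind S (g 2) * om (c (g 1)) (c (g 2)) : ℝ) : ℂ) * (c (g 2) - c (g 1)) +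
      ((ind S (g 2) * om (c (g 2)) (c (g 3)) : ℝ) : ℂ) * (c (g 2) - c (g 3)) ∧
    cgrad c (lst g 4 S) (g 3) =
      ((ind S (g 2) * om (c (g 2)) (c (g 3)) : ℝ) : ℂ) * (c (g 3) - c (g 2)) +
      ((ind S (g 0) * om (c (g 0)) (c (g 3)) : ℝ) : ℂ) * (c (g 3) - c (g 0)) +
      ((((1 - ind S (g 2)) + (1 - ind S (g 0))) * om (c (g 1)) (c (g 3)) : ℝ) : ℂ) *
        (c (g 3) - c (g 1)) ∧
    cgrad c (lst g 4 S) (g 0) =
      ((ind S (g 0) * om (c (g 0)) (c (g 3)) : ℝ) : ℂ) * (c (g 0) - c (g 3)) +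
      ((ind S (g 0) * om (c (g 0)) (c (g 1)) : ℝ) : ℂ) * (c (g 0) - c (g 1)) := by
  have e0 : g ((0 : ℕ) : ℤ) = g 0 := rfl
  have e1 : g ((1 : ℕ) : ℤ) = g 1 := rfl
  have e2 : g ((2 : ℕ) : ℤ) = g 2 := rfl
  have e3 : g ((3 : ℕ) : ℤ) = g 3 := rfl
  have hl : lst g 4 S = ([g 0, g 1, g 2, g 3] : List (Fin n)).filter (fun i => decide (i ∈ S)) := by
    unfold lst
    simp only [List.range_succ, List.range_zero, List.nil_append, List.map_cons,
      List.map_nil, List.cons_append, e0, e1, e2, e3]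
  have r01 := om_comm (c (g 1)) (c (g 0))
  have r13 := om_comm (c (g 3)) (c (g 1))
  have r03 := om_comm (c (g 3)) (c (g 0))
  have r12 := om_comm (c (g 2)) (c (g 1))
  have r23 := om_comm (c (g 3)) (c (g 2))
  by_cases m0 : g 0 ∈ S <;> by_cases m2 : g 2 ∈ S
  · have hl' : lst g 4 S = [g 0, g 1, g 2, g 3] := by rw [hl]; simp [m0, m1, m2, m3]
    rw [hl']
    unfold cgrad ind
    simp only [m0, m2, if_true]
    refine ⟨?_, ?_, ?_, ?_⟩ <;>
    · simp [h01, h02, h03, h12, h13, h23, h01.symm, h02.symm, h03.symm, h12.symm, h13.symm,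
        h23.symm, List.rotate, r01, r13, r03, r12, r23]
      try ring
  · have hl' : lst g 4 S = [g 0, g 1, g 3] := by rw [hl]; simp [m0, m1, m2, m3]
    rw [hl']
    unfold cgrad ind
    simp only [m0, m2, if_true, if_false]
    refine ⟨?_, ?_, ?_, ?_⟩ <;>
    · simp [h01, h02, h03, h12, h13, h23, h01.symm, h02.symm, h03.symm, h12.symm, h13.symm,
        h23.symm, List.rotate, r01, r13, r03, r12, r23]
      try ring
  · have hl' : lst g 4 S = [g 1, g 2, g 3] := by rw [hl]; simp [m0, m1, m2, m3]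
    rw [hl']
    unfold cgrad ind
    simp only [m0, m2, if_true, if_false]
    refine ⟨?_, ?_, ?_, ?_⟩ <;>
    · simp [h01, h02, h03, h12, h13, h23, h01.symm, h02.symm, h03.symm, h12.symm, h13.symm,
        h23.symm, List.rotate, r01, r13, r03, r12, r23]
      try ring
  · have hl' : lst g 4 S = [g 1, g 3] := by rw [hl]; simp [m0, m1, m2, m3]
    rw [hl']
    unfold cgrad ind
    simp only [m0, m2, if_false]
    refine ⟨?_, ?_, ?_, ?_⟩ <;>
    · simp [h01, h02, h03, h12, h13, h23, h01.symm, h02.symm, h03.symm, h12.symm, h13.symm,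
        h23.symm, List.rotate, r01, r13, r03, r12, r23]
      try ring

theorem wsum3 {n : ℕ} (θ A B C : Finset (Fin n) → ℝ) (f : Finset (Fin n) → ℂ) (u v w : ℂ)
    (h : ∀ S, θ S ≠ 0 → f S = (A S : ℂ) * u + (B S : ℂ) * v + (C S : ℂ) * w) :
    ∑ S, (θ S : ℂ) * f S = ((∑ S, θ S * A S : ℝ) : ℂ) * u + ((∑ S, θ S * B S : ℝ) : ℂ) * v +
      ((∑ S, θ S * C S : ℝ) : ℂ) * w := by
  push_cast
  rw [Finset.sum_mul, Finset.sum_mul, Finset.sum_mul, ← Finset.sum_add_distrib,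
    ← Finset.sum_add_distrib]
  refine Finset.sum_congr rfl fun S _ => ?_
  by_cases hS : θ S = 0
  · rw [hS]; push_cast; ring
  · rw [h S hS]; ring

theorem sum5 (g0 g1 g2 g3 : Fin 5) (h01 : g0 ≠ g1) (h02 : g0 ≠ g2) (h03 : g0 ≠ g3)
    (h12 : g1 ≠ g2) (h13 : g1 ≠ g3) (h23 : g2 ≠ g3) (z0 : g0 ≠ 0) (z1 : g1 ≠ 0) (z2 : g2 ≠ 0)
    (z3 : g3 ≠ 0) (f : Fin 5 → ℂ) : ∑ j, f j = f 0 + f g0 + f g1 + f g2 + f g3 := by
  have hu : (Finset.univ : Finset (Fin 5)) = {0, g0, g1, g2, g3} := by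
    symm
    apply Finset.eq_univ_of_card
    rw [Finset.card_insert_of_notMem, Finset.card_insert_of_notMem,
      Finset.card_insert_of_notMem, Finset.card_insert_of_notMem, Finset.card_singleton]
    · simp
    · simpa using h23
    · simp [h12, h13]
    · simp [h01, h02, h03]
    · simp [z0.symm, z1.symm, z2.symm, z3.symm]
  rw [hu, Finset.sum_insert, Finset.sum_insert, Finset.sum_insert, Finset.sum_insert,
    Finset.sum_singleton]
  · ring
  · simpa using h23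
  · simp [h12, h13]
  · simp [h01, h02, h03]
  · simp [z0.symm, z1.symm, z2.symm, z3.symm]

end E5
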